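import Mathlib
import Pool.Agent.Y156.L.Core
import Pool.Agent.Y156.L.Thms

/-!
# Generalized Frobenius invariants: the Kunneth formula
-/

set_option autoImplicit false
set_option linter.unusedSectionVars false

namespace Pool.Agent.X300.RB

open Module Polynomial Pool.Agent.W484.TB Pool.Agent.W484.HS Pool.Agent.W521.Frob
  Pool.Agent.W521.Count Pool.Agent.W521.Bad Pool.Agent.W521.Descent Pool.Agent.W521.Density
  Pool.Agent.Y156.L

section abstract

variable {M : Type*} [AddCommGroup M] [Module ℚ M]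

/-- The filtration by the powers of `φ ψ - μ`. -/
noncomputable def filt (φ ψ : Module.End ℚ M) (G : Submodule ℚ M) (μ : ℚ) : ℕ → Submodule ℚ M
  | 0 => ⊥
  | n + 1 => G ⊓ (filt φ ψ G μ n).comap (φ * ψ - μ • (1 : Module.End ℚ M))

theorem mem_filt_succ {φ ψ : Module.End ℚ M} {G : Submodule ℚ M} {μ : ℚ} {n : ℕ} {m : M} :
    m ∈ filt φ ψ G μ (n + 1) ↔ m ∈ G ∧ φ (ψ m) - μ • m ∈ filt φ ψ G μ n := by
  rw [filt, Submodule.mem_inf, Submodule.mem_comap]
  rfl

theorem aeval_mapQ (f : Module.End ℚ M) (W : Submodule ℚ M) (h : W ≤ W.comap f) (P : ℚ[X])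
    (m : M) : aeval (W.mapQ W f h : Module.End ℚ (M ⧸ W)) P (W.mkQ m) =
      W.mkQ (aeval f P m) := by
  have hpow : ∀ l : ℕ, ((W.mapQ W f h : Module.End ℚ (M ⧸ W)) ^ l) (W.mkQ m) =
      W.mkQ ((f ^ l) m) := by
    intro l
    induction l with
    | zero => rfl
    | succ l ih =>
      rw [pow_succ', Module.End.mul_apply, ih, pow_succ', Module.End.mul_apply]
      rfl
  rw [aeval_eq_sum_range, aeval_eq_sum_range, LinearMap.sum_apply, LinearMap.sum_apply, map_sum]
  refine Finset.sum_congr rfl fun l _ => ?_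
  rw [LinearMap.smul_apply, LinearMap.smul_apply, hpow, map_smul]

section

variable (φ ψ : Module.End ℚ M) (G : Submodule ℚ M) (μ : ℚ) (hG : ∀ m ∈ G, ψ m ∈ G)
  (hcomm : ∀ m, ψ (φ m) = φ (ψ m)) (χ : ℚ[X]) (h0 : χ.coeff 0 ≠ 0)
  (hχ : ∀ m ∈ G, aeval ψ χ m = 0)

include hG hcomm in
theorem filt_psi (n : ℕ) : ∀ m ∈ filt φ ψ G μ n, ψ m ∈ filt φ ψ G μ n := by
  induction n with
  | zero =>
    intro m hm
    rw [filt, Submodule.mem_bot] at hm ⊢
    rw [hm, map_zero]
  | succ n ih =>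
    intro m hm
    rw [mem_filt_succ] at hm ⊢
    refine ⟨hG m hm.1, ?_⟩
    have h1 := ih _ hm.2
    rwa [map_sub, map_smul, hcomm] at h1

include hG hcomm h0 hχ in
theorem filt_phi (n : ℕ) : ∀ m ∈ filt φ ψ G μ n, φ m ∈ filt φ ψ G μ n := by
  induction n with
  | zero =>
    intro m hm
    rw [filt, Submodule.mem_bot] at hm ⊢
    rw [hm, map_zero]
  | succ n ih =>
    intro m hm
    set W := filt φ ψ G μ n with hW
    have hle : W ≤ filt φ ψ G μ (n + 1) := by
      rw [hW]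
      clear hm ih hW
      induction n with
      | zero => exact bot_le
      | succ n ih2 =>
        intro y hy
        rw [mem_filt_succ] at hy ⊢
        exact ⟨hy.1, ih2 hy.2⟩
    have hφ : W ≤ W.comap φ := ih
    have hψ : W ≤ W.comap ψ := filt_psi φ ψ G μ hG hcomm n
    have h1 := stable_of (W.mapQ W φ hφ : Module.End ℚ (M ⧸ W))
      (W.mapQ W ψ hψ : Module.End ℚ (M ⧸ W)) ((filt φ ψ G μ (n + 1)).map W.mkQ) μ
      (by
        rintro _ ⟨y, hy, rfl⟩
        exact ⟨ψ y, filt_psi φ ψ G μ hG hcomm (n + 1) y hy, rfl⟩)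
      (by
        rintro _ ⟨y, hy, rfl⟩
        have h2 := (mem_filt_succ.1 hy).2
        rw [← hW] at h2
        have h3 : W.mkQ (φ (ψ y) - μ • y) = 0 := by
          rw [Submodule.mkQ_apply, Submodule.Quotient.mk_eq_zero]
          exact h2
        rw [map_sub, map_smul, sub_eq_zero] at h3
        exact h3) χ h0
      (by
        rintro _ ⟨y, hy, rfl⟩
        rw [aeval_mapQ, hχ y (mem_filt_succ.1 hy).1, map_zero]) ⟨m, hm, rfl⟩
    obtain ⟨y, hy, hy2⟩ := h1
    have h4 : W.mkQ y = W.mkQ (φ m) := hy2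
    have h5 : φ m - y ∈ W := by
      rw [← Submodule.Quotient.mk_eq_zero, ← Submodule.mkQ_apply, map_sub, h4, sub_self]
    have h6 := Submodule.add_mem _ (hle h5) hy
    rwa [sub_add_cancel] at h6

include hG hcomm h0 hχ in
theorem filt_rev (n : ℕ) : ∀ m ∈ filt φ ψ G μ (n + 1), aeval φ (rev χ μ) m ∈ filt φ ψ G μ n := by
  intro m hm
  set W := filt φ ψ G μ n with hW
  have hφ : W ≤ W.comap φ := filt_phi φ ψ G μ hG hcomm χ h0 hχ n
  have hψ : W ≤ W.comap ψ := filt_psi φ ψ G μ hG hcomm n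
  have h1 := aeval_rev_op (W.mapQ W φ hφ : Module.End ℚ (M ⧸ W))
    (W.mapQ W ψ hψ : Module.End ℚ (M ⧸ W)) ((filt φ ψ G μ (n + 1)).map W.mkQ) μ
    (by
      rintro _ ⟨y, hy, rfl⟩
      exact ⟨ψ y, filt_psi φ ψ G μ hG hcomm (n + 1) y hy, rfl⟩)
    (by
      rintro _ ⟨y, hy, rfl⟩
      have h2 := (mem_filt_succ.1 hy).2
      rw [← hW] at h2
      have h3 : W.mkQ (φ (ψ y) - μ • y) = 0 := by
        rw [Submodule.mkQ_apply, Submodule.Quotient.mk_eq_zero]
        exact h2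
      rw [map_sub, map_smul, sub_eq_zero] at h3
      exact h3) χ
    (by
      rintro _ ⟨y, hy, rfl⟩
      rw [aeval_mapQ, hχ y (mem_filt_succ.1 hy).1, map_zero]) ⟨m, hm, rfl⟩
  have h2 : W.mkQ (aeval φ (rev χ μ) m) = 0 := by
    rw [← aeval_mapQ φ W hφ]
    exact h1
  rwa [Submodule.mkQ_apply, Submodule.Quotient.mk_eq_zero] at h2

include hG hcomm h0 hχ in
theorem filt_rev_pow (n : ℕ) : ∀ m ∈ filt φ ψ G μ n, aeval φ ((rev χ μ) ^ n) m = 0 := by
  induction n with
  | zero =>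
    intro m hm
    rw [filt, Submodule.mem_bot] at hm
    rw [hm, map_zero]
  | succ n ih =>
    intro m hm
    rw [pow_succ, map_mul, Module.End.mul_apply]
    exact ih _ (filt_rev φ ψ G μ hG hcomm χ h0 hχ n m hm)

end

end abstract

end Pool.Agent.X300.RB
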