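import Mathlib
import Pool.Agent.X300.RB.Gen

/-!
# Generalized Frobenius invariants: the Kunneth formula
-/

set_option autoImplicit false
set_option linter.unusedSectionVars false

namespace Pool.Agent.X300.RB

open Module Polynomial Pool.Agent.W484.TB Pool.Agent.W484.HS Pool.Agent.W521.Frob
  Pool.Agent.W521.Count Pool.Agent.W521.Bad Pool.Agent.W521.Descent Pool.Agent.W521.Density
  Pool.Agent.Y156.L

variable {K : Type} [Field K] [CharZero K] {A : AbelianData K}

/-- The elements of `H^i(A × U, j)` which are killed by `(F - Q ^ j) ^ n`, where `F` is the Frobenius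
endomorphism of `A × U`. -/
noncomputable def genM (T : RelData A) (Q : ℕ) (i j : ℤ) (n : ℕ) : Submodule ℚ T.M :=
  filt (T.act A.frob) T.frobM (T.grM i j) ((Q : ℚ) ^ j) n

/-- The elements of `H^i(U, j)` which are killed by `(F - Q ^ j) ^ n`, where `F` is the Frobenius
endomorphism of `U`. -/
noncomputable def genN (T : RelData A) (Q : ℕ) (i j : ℤ) (n : ℕ) : Submodule ℚ T.N :=
  filt 1 T.frobN (T.grN i j) ((Q : ℚ) ^ j) n

theorem mem_genM_succ {T : RelData A} {Q : ℕ} {i j : ℤ} {n : ℕ} {m : T.M} :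
    m ∈ genM T Q i j (n + 1) ↔ m ∈ T.grM i j ∧
      T.act A.frob (T.frobM m) - (Q : ℚ) ^ j • m ∈ genM T Q i j n := mem_filt_succ

theorem mem_genN_succ {T : RelData A} {Q : ℕ} {i j : ℤ} {n : ℕ} {m : T.N} :
    m ∈ genN T Q i j (n + 1) ↔ m ∈ T.grN i j ∧
      T.frobN m - (Q : ℚ) ^ j • m ∈ genN T Q i j n := mem_filt_succ

theorem mem_genM_zero {T : RelData A} {Q : ℕ} {i j : ℤ} {m : T.M} :
    m ∈ genM T Q i j 0 ↔ m = 0 := by
  rw [genM, filt, Submodule.mem_bot]

theorem mem_genN_zero {T : RelData A} {Q : ℕ} {i j : ℤ} {m : T.N} :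
    m ∈ genN T Q i j 0 ↔ m = 0 := by
  rw [genN, filt, Submodule.mem_bot]

theorem mem_genM_one {T : RelData A} {Q : ℕ} {i j : ℤ} {m : T.M} :
    m ∈ genM T Q i j 1 ↔ T.InvM Q i j m := by
  rw [mem_genM_succ, mem_genM_zero, sub_eq_zero, inv_iff]

theorem mem_genN_one {T : RelData A} {Q : ℕ} {i j : ℤ} {m : T.N} :
    m ∈ genN T Q i j 1 ↔ T.InvN Q i j m := by
  rw [mem_genN_succ, mem_genN_zero, sub_eq_zero, invN_iff]

theorem genM_grM {T : RelData A} {Q : ℕ} {i j : ℤ} {n : ℕ} {m : T.M}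
    (hm : m ∈ genM T Q i j n) : m ∈ T.grM i j := by
  cases n with
  | zero =>
    rw [mem_genM_zero] at hm
    rw [hm]
    exact Submodule.zero_mem _
  | succ n => exact (mem_genM_succ.1 hm).1

theorem times_gen {Q : ℕ} (hQ : Q ≠ 0) {T : RelData A} (hT : IsRel Q T) {c : ℕ} {b : A.CH}
    (hb : b ∈ A.codim c) {i j : ℤ} (n : ℕ) : ∀ z ∈ genN T Q i j n,
      T.times b z ∈ genM T Q (i + 2 * c) (j + c) n := by
  have hQ0 : (Q : ℚ) ≠ 0 := by exact_mod_cast hQ
  induction n with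
  | zero =>
    intro z hz
    rw [mem_genN_zero] at hz
    rw [hz, map_zero]
    exact Submodule.zero_mem _
  | succ n ih =>
    intro z hz
    rw [mem_genN_succ] at hz
    rw [mem_genM_succ]
    refine ⟨hT.times_mem hb hz.1, ?_⟩
    have h1 : T.act A.frob (T.frobM (T.times b z)) - (Q : ℚ) ^ (j + c) • T.times b z =
        (Q : ℚ) ^ c • T.times b (T.frobN z - (Q : ℚ) ^ j • z) := by
      rw [hT.frob_times, hT.act_frob_times _ hb, map_sub, map_smul, smul_sub, smul_smul,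
        zpow_add₀ hQ0, zpow_natCast, mul_comm ((Q : ℚ) ^ j)]
    rw [h1]
    exact Submodule.smul_mem _ _ (ih _ hz.2)

section

variable {J : Type} [Fintype J] {c : J → ℕ} {D E : J → A.CH}

theorem pair_gen {Q : ℕ} (hQ : Q ≠ 0) {T : RelData A} (hT : IsRel Q T) (h : IsDual A c D E)
    {i j : ℤ} (n : ℕ) (hexp : ∀ m ∈ genM T Q i j n, m = ∑ t, T.times (D t) (T.pair (E t) m))
    (t : J) : ∀ m ∈ genM T Q i j n, T.pair (E t) m ∈ genN T Q (i - 2 * c t) (j - c t) n := by
  have hQ0 : (Q : ℚ) ≠ 0 := by exact_mod_cast hQ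
  induction n with
  | zero =>
    intro m hm
    rw [mem_genM_zero] at hm
    rw [hm, map_zero]
    exact Submodule.zero_mem _
  | succ n ih =>
    intro m hm
    have h0 := hexp m hm
    have hm' := mem_genM_succ.1 hm
    rw [mem_genN_succ]
    refine ⟨hT.pair_mem (by have := h.le t; omega) (h.right t) hm'.1, ?_⟩
    have h1 : T.act A.frob (T.frobM m) = ∑ l, T.times (D l)
        ((Q : ℚ) ^ c l • T.frobN (T.pair (E l) m)) := by
      conv_lhs => rw [h0]
      rw [map_sum, map_sum]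
      refine Finset.sum_congr rfl fun l _ => ?_
      rw [hT.frob_times, hT.act_frob_times _ (h.left l), map_smul]
    have h2 := congrArg (T.pair (E t)) h1
    rw [pair_sum hT h] at h2
    have h3 : T.frobN (T.pair (E t) m) - (Q : ℚ) ^ (j - (c t : ℤ)) • T.pair (E t) m =
        ((Q : ℚ) ^ c t)⁻¹ • T.pair (E t) (T.act A.frob (T.frobM m) - (Q : ℚ) ^ j • m) := by
      rw [map_sub, h2, map_smul, smul_sub, smul_smul, smul_smul,
        inv_mul_cancel₀ (pow_ne_zero _ hQ0), one_smul, zpow_sub₀ hQ0, zpow_natCast,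
        div_eq_inv_mul]
    rw [h3]
    refine Submodule.smul_mem _ _ (ih ?_ _ hm'.2)
    intro y hy
    refine hexp y ?_
    have hle : ∀ n : ℕ, genM T Q i j n ≤ genM T Q i j (n + 1) := by
      intro n
      induction n with
      | zero =>
        intro y hy
        rw [mem_genM_zero] at hy
        rw [hy]
        exact Submodule.zero_mem _
      | succ n ih2 =>
        intro y hy
        rw [mem_genM_succ] at hy ⊢
        exact ⟨hy.1, ih2 hy.2⟩
    exact hle n hy

end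

/-- The Frobenius endomorphism of `U` satisfies, on all of `H^i(A × U, j)`, for all `i` and `j`, a
nonzero rational polynomial whose roots in `ℂ` lie, up to powers, in a group generated by the
nonzero elements of the number field `E` and `r` numbers. -/
def HasTotalRank (T : RelData A) (E : IntermediateField ℚ ℂ) (r : ℕ) : Prop :=
  ∀ i j : ℤ, ∃ χ : ℚ[X], χ ≠ 0 ∧ GroupOfRank E r {ρ : ℂ | aeval ρ χ = 0} ∧
    ∀ m, T.DegM i j m → aeval T.frobM χ m = 0

theorem HasTotalRank.hasRank {T : RelData A} {E : IntermediateField ℚ ℂ} {r : ℕ}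
    (h : HasTotalRank T E r) (Q : ℕ) : T.HasRank Q E r := by
  intro i j
  obtain ⟨χ, h1, h2, h3⟩ := h i j
  exact ⟨χ, h1, h2, fun m hm => h3 m hm.1⟩

variable {I : Type} [Finite I] (g : I → ℕ) (E : IntermediateField ℚ ℂ) [FiniteDimensional ℚ E]
  {q : ℕ} (hq : 1 < q) (r : ℕ) (hr : ∀ i, r < g i)
  (x : (Σ i, Fin (g i)) → ℤ) (hx : GoodU (splitPrimes E) g q x)

include hq hr hx in
/-- **The Kunneth formula for generalized invariants, for all theories of rank at most `r` over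
`E`.** -/
theorem exists_classes_gen {s : ℕ} (hA : IsAbelian A q s (fun i => weil q (polys g x i))) :
    ∃ (J : Type) (_ : Fintype J) (c : J → ℕ) (D E' : J → A.CH), IsFamily A c D ∧
      IsDual A c D E' ∧ q ^ s ≠ 0 ∧
      ∀ T : RelData A, IsRel (q ^ s) T → HasTotalRank T E r →
        ∀ (i j : ℤ) (n : ℕ), ∀ m ∈ genM T (q ^ s) i j n,
          m = ∑ t, T.times (D t) (T.pair (E' t) m) ∧
          m = ∑ t, T.times (E' t) (T.pair (D t) m) := by
  obtain ⟨n, b, α, hb, hα, hα0, hgood⟩ := exists_good_basis g E hq r hr x hx hA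
  have hs := hA.pos
  have hQ1 : 1 < q ^ s := Nat.one_lt_pow hs.ne' hq
  have hX1 : (Polynomial.X - 1 : ℚ[X]) ≠ 0 := by
    have := Polynomial.X_sub_C_ne_zero (1 : ℚ)
    rwa [map_one] at this
  have h1 : ∀ t (c : ℤ), α t = ((q ^ s : ℕ) : K) ^ c →
      ∃ l : ℕ, α t = ((q ^ s : ℕ) : K) ^ l ∧ b t ∈ NK A l := by
    intro t c hc
    exact hgood _ hX1 (Pool.Agent.W484.CH.rank_one E r) 1
      (by rw [map_sub, aeval_X, map_one, sub_self]) t c (by rw [mul_one]; exact hc)
  obtain ⟨J, hJ, c, D, E', hdual, hD, hE, hN⟩ := exists_dual hA hQ1 b α hb h1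
  have hN' := span_dual hA hQ1 b α hb h1 hdual hE hN
  have hfam : IsFamily A c D :=
    ⟨hD, hdual.le, fun k hk => exists_codim hA hQ1 b α hb h1 hN hk⟩
  refine ⟨J, hJ, c, D, E', hfam, hdual, by omega, fun T hT hrk i j k m hm => ?_⟩
  obtain ⟨χ, hχ, hrank, hkillψ⟩ := hrk i j
  obtain ⟨P, hP, hmix⟩ := exists_kill b α hb hα hα0 χ ((((q ^ s : ℕ) : ℚ)) ^ j) (by
    intro ρ hρ t ht
    obtain ⟨l, -, hl⟩ := hgood χ hχ hrank ρ hρ t j (by rw [ht]; push_cast; rfl)
    exact ⟨l, hl⟩)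
  have hG : ∀ m ∈ T.grM i j, T.frobM m ∈ T.grM i j := fun m hm => hT.frob_mem hm
  have hcomm : ∀ m, T.frobM (T.act A.frob m) = T.act A.frob (T.frobM m) :=
    fun m => hT.frob_act _ m
  have hc0 := coeff_zero_ne hrank
  have hV : ∀ m ∈ genM T (q ^ s) i j k, T.act A.frob m ∈ genM T (q ^ s) i j k :=
    filt_phi _ _ _ _ hG hcomm χ hc0 hkillψ k
  have hR : ∀ m ∈ genM T (q ^ s) i j k,
      aeval (T.act A.frob) ((rev χ (((q ^ s : ℕ) : ℚ) ^ j)) ^ k) m = 0 :=
    filt_rev_pow _ _ _ _ hG hcomm χ hc0 hkillψ k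
  exact ⟨rel_core hA hT hdual P _ hP.pow_right
      (fun w => act_proj_mix hA hdual hN (hmix w)) _ hV hR hm,
    rel_core hA hT hdual.symm P _ hP.pow_right
      (fun w => act_proj_mix hA hdual.symm hN' (hmix w)) _ hV hR hm⟩

end Pool.Agent.X300.RB
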