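import Mathlib
import Pool.Agent.X300.RB.Kun

/-!
# The Tate-Beilinson statement for products with almost all abelian varieties
-/

set_option autoImplicit false
set_option linter.unusedSectionVars false

namespace Pool.Agent.X300.RB

open Module Polynomial Pool.Agent.W484.TB Pool.Agent.W484.HS Pool.Agent.W521.Frob
  Pool.Agent.W521.Count Pool.Agent.W521.Bad Pool.Agent.W521.Descent Pool.Agent.W521.Density
  Pool.Agent.Y156.L

section defs

variable {K : Type} [Field K] {A : AbelianData K}

/-- `GenM T Q i j n m`: the element `m` lies in `H^i(A × U, j)` and is killed by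
`(F - Q ^ j) ^ n`, where `F` is the Frobenius endomorphism of `A × U`. -/
def GenM (T : RelData A) (Q : ℕ) (i j : ℤ) : ℕ → T.M → Prop
  | 0, m => m = 0
  | n + 1, m => T.DegM i j m ∧ GenM T Q i j n (T.app A.frob (T.FM m) - T.scaleM ((Q : ℚ) ^ j) m)

/-- `GenN T Q i j n m`: the element `m` lies in `H^i(U, j)` and is killed by `(F - Q ^ j) ^ n`,
where `F` is the Frobenius endomorphism of `U`. -/
def GenN (T : RelData A) (Q : ℕ) (i j : ℤ) : ℕ → T.N → Prop
  | 0, m => m = 0
  | n + 1, m => T.DegN i j m ∧ GenN T Q i j n (T.FN m - T.scaleN ((Q : ℚ) ^ j) m)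

/-- The Jordan blocks of the eigenvalue `Q ^ j` of the Frobenius endomorphism of `A × U` on
`H^i(A × U, j)` have size at most `n`. -/
def BlocksM (T : RelData A) (Q : ℕ) (i j : ℤ) (n : ℕ) : Prop :=
  ∀ m, GenM T Q i j (n + 1) m → GenM T Q i j n m

/-- The Jordan blocks of the eigenvalue `Q ^ j` of the Frobenius endomorphism of `U` on
`H^i(U, j)` have size at most `n`. -/
def BlocksN (T : RelData A) (Q : ℕ) (i j : ℤ) (n : ℕ) : Prop :=
  ∀ m, GenN T Q i j (n + 1) m → GenN T Q i j n m

/-- The Kunneth formula: every element of `H^i(A × U, j)` killed by `(F - Q ^ j) ^ n` is the sum of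
the products of the `D t` with unique elements of `H^(i - 2 c t)(U, j - c t)` killed by
`(F - Q ^ (j - c t)) ^ n`. -/
def KunnethGen (T : RelData A) (Q : ℕ) {J : Type} [Fintype J] (c : J → ℕ) (D : J → A.CH) : Prop :=
  ∀ (i j : ℤ) (n : ℕ) (m : T.M), GenM T Q i j n m → ∃! z : J → T.N,
    (∀ t, GenN T Q (i - 2 * c t) (j - c t) n (z t)) ∧ m = ∑ t, T.mul (D t) (z t)

/-- The bidegree `(i, j)` of the Tate-Beilinson statement for `A × U`: the regulator is injective
and onto the Frobenius invariants, and the eigenvalue `Q ^ j` of Frobenius is semisimple. -/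
structure TateBeilinsonM {T R : RelData A} (ρ : Regulator T R) (Q : ℕ) (i j : ℤ) : Prop where
  injective : InjectiveM ρ i j
  onto : OntoM ρ Q i j
  semisimple : BlocksM R Q i j 1

/-- The bidegree `(i, j)` of the Tate-Beilinson statement for `U`: the regulator is injective
and onto the Frobenius invariants, and the eigenvalue `Q ^ j` of Frobenius is semisimple. -/
structure TateBeilinsonN {T R : RelData A} (ρ : Regulator T R) (Q : ℕ) (i j : ℤ) : Prop where
  injective : InjectiveN ρ i j
  onto : OntoN ρ Q i j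
  semisimple : BlocksN R Q i j 1

/-- `TBForRankOver E q r f`: for every abelian variety `A` as in `IsAbelian` there are finitely
many products `D t` of divisor classes on `A`, such that for all `T` (motivic theory) and `R`
(`ℓ`-adic theory) relative to any scheme `U`, with the formal properties and of rank at most `r`
over `E`, `T` pure, and all regulators from `T` to `R`: the Kunneth formula holds for `T` and for
`R`; each of the following statements for `A × U` in the bidegree `(i, j)` holds if and only if it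
holds for `U` in the bidegrees `(i - 2 k, j - k)`, `0 ≤ k ≤ dim A`: the regulator is injective; the
regulator is onto the Frobenius invariants; the Jordan blocks of the eigenvalue `Q ^ j` have size at
most `n`; the Tate-Beilinson statement; and the Tate-Beilinson statement holds for `A × U` in all bidegrees if and only if
it holds for `U` in all bidegrees. -/
def TBForRankOver (E : IntermediateField ℚ ℂ) (q r : ℕ) {I : Type} (f : I → ℤ[X]) : Prop :=
  ∀ (K : Type) [Field K] [CharZero K] (A : AbelianData K) (s : ℕ), IsAbelian A q s f →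
    ∃ (J : Type) (_ : Fintype J) (c : J → ℕ) (D : J → A.CH), IsFamily A c D ∧
      ∀ (T R : RelData A) (ρ : Regulator T R), IsRel (q ^ s) T → IsRel (q ^ s) R →
        T.IsPure (q ^ s) → HasTotalRank T E r → HasTotalRank R E r → IsRegulator ρ →
        KunnethGen T (q ^ s) c D ∧ KunnethGen R (q ^ s) c D ∧
        (∀ i j : ℤ,
          (InjectiveM ρ i j ↔ ∀ k : ℕ, k ≤ A.dim → InjectiveN ρ (i - 2 * k) (j - k)) ∧
          (OntoM ρ (q ^ s) i j ↔
            ∀ k : ℕ, k ≤ A.dim → OntoN ρ (q ^ s) (i - 2 * k) (j - k)) ∧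
          (∀ n : ℕ, BlocksM R (q ^ s) i j n ↔
            ∀ k : ℕ, k ≤ A.dim → BlocksN R (q ^ s) (i - 2 * k) (j - k) n) ∧
          (TateBeilinsonM ρ (q ^ s) i j ↔
            ∀ k : ℕ, k ≤ A.dim → TateBeilinsonN ρ (q ^ s) (i - 2 * k) (j - k))) ∧
        ((∀ i j : ℤ, TateBeilinsonM ρ (q ^ s) i j) ↔ ∀ i j : ℤ, TateBeilinsonN ρ (q ^ s) i j)

end defs

section

variable {K : Type} [Field K] [CharZero K] {A : AbelianData K} {J : Type} [Fintype J]
  {c : J → ℕ} {D E : J → A.CH} {Q : ℕ}

theorem genM_iff {T : RelData A} {i j : ℤ} (n : ℕ) :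
    ∀ {m : T.M}, GenM T Q i j n m ↔ m ∈ genM T Q i j n := by
  induction n with
  | zero =>
    intro m
    rw [mem_genM_zero]
    rfl
  | succ n ih =>
    intro m
    rw [mem_genM_succ, ← ih]
    rfl

theorem genN_iff {T : RelData A} {i j : ℤ} (n : ℕ) :
    ∀ {m : T.N}, GenN T Q i j n m ↔ m ∈ genN T Q i j n := by
  induction n with
  | zero =>
    intro m
    rw [mem_genN_zero]
    rfl
  | succ n ih =>
    intro m
    rw [mem_genN_succ, ← ih]
    rfl

theorem kunnethGen_of (hQ : Q ≠ 0) {T : RelData A} (hT : IsRel Q T) (h : IsDual A c D E)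
    (hexp : ∀ (i j : ℤ) (n : ℕ), ∀ m ∈ genM T Q i j n,
      m = ∑ t, T.times (D t) (T.pair (E t) m)) : KunnethGen T Q c D := by
  intro i j n m hm
  rw [genM_iff] at hm
  have h0 := hexp i j n m hm
  refine ⟨fun t => T.pair (E t) m, ⟨fun t => ?_, h0⟩, ?_⟩
  · rw [genN_iff]
    exact pair_gen hQ hT h n (hexp i j n) t m hm
  · rintro z ⟨-, hz⟩
    funext t
    rw [hz]
    exact (pair_sum hT h t z).symm

theorem blocks_iff (hF : IsFamily A c D) (h : IsDual A c D E) (hQ : Q ≠ 0) {T : RelData A}
    (hT : IsRel Q T) (hexp : ∀ (i j : ℤ) (n : ℕ), ∀ m ∈ genM T Q i j n,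
      m = ∑ t, T.times (D t) (T.pair (E t) m)) (i j : ℤ) (n : ℕ) :
    BlocksM T Q i j n ↔ ∀ k : ℕ, k ≤ A.dim → BlocksN T Q (i - 2 * k) (j - k) n := by
  constructor
  · intro h0 k hk z hz
    rw [genN_iff] at hz ⊢
    obtain ⟨t, rfl⟩ := hF.exists_eq k hk
    have h1 := times_gen hQ hT (h.left t) (n + 1) z hz
    rw [sub_add_cancel, sub_add_cancel] at h1
    have h2 := h0 _ ((genM_iff (n + 1)).2 h1)
    rw [genM_iff] at h2
    have h3 := pair_gen hQ hT h n (hexp i j n) t _ h2
    classical
    rwa [dualpair hT h t t z, if_pos rfl] at h3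
  · intro h0 m hm
    rw [genM_iff] at hm ⊢
    rw [hexp i j (n + 1) m hm]
    refine Submodule.sum_mem _ fun t _ => ?_
    have h1 := pair_gen hQ hT h (n + 1) (hexp i j (n + 1)) t m hm
    have h2 := h0 (c t) (h.le t) _ ((genN_iff (n + 1)).2 h1)
    rw [genN_iff] at h2
    have h3 := times_gen hQ hT (h.left t) n _ h2
    rwa [sub_add_cancel, sub_add_cancel] at h3

end

section

variable {I : Type} [Finite I] (g : I → ℕ) (E : IntermediateField ℚ ℂ) [FiniteDimensional ℚ E]
  {q : ℕ} (hq : 1 < q) (r : ℕ) (hr : ∀ i, r < g i)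
  (x : (Σ i, Fin (g i)) → ℤ) (hx : GoodU (splitPrimes E) g q x)

include hq hr hx

theorem tb_of_good : TBForRankOver E q r (fun i => weil q (polys g x i)) := by
  intro K _ _ A s hA
  obtain ⟨J, hJ, c, D, E', hF, hdual, hQ, hmain⟩ := exists_classes_gen g E hq r hr x hx hA
  refine ⟨J, hJ, c, D, hF, fun T R ρ hT hR hpure hrT hrR hρ => ?_⟩
  have hexpT := fun i j n m hm => (hmain T hT hrT i j n m hm).1
  have hexpR := fun i j n m hm => (hmain R hR hrR i j n m hm).1
  have hinj := fun i j => beilinson_iff hF hdual hT hρ (fun i j m hm => hexpT i j 1 m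
    (mem_genM_one.2 (hpure i j m hm))) i j
  have honto := fun i j => tate_iff hF hdual hQ hT hR hρ (fun i j m hm => hexpR i j 1 m
    (mem_genM_one.2 hm)) i j
  have hblocks := blocks_iff hF hdual hQ hR hexpR
  have htb : ∀ i j : ℤ, TateBeilinsonM ρ (q ^ s) i j ↔
      ∀ k : ℕ, k ≤ A.dim → TateBeilinsonN ρ (q ^ s) (i - 2 * k) (j - k) := by
    intro i j
    constructor
    · intro h k hk
      exact ⟨(hinj i j).1 h.injective k hk, (honto i j).1 h.onto k hk,
        (hblocks i j 1).1 h.semisimple k hk⟩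
    · intro h
      exact ⟨(hinj i j).2 fun k hk => (h k hk).injective,
        (honto i j).2 fun k hk => (h k hk).onto,
        (hblocks i j 1).2 fun k hk => (h k hk).semisimple⟩
  refine ⟨kunnethGen_of hQ hT hdual hexpT, kunnethGen_of hQ hR hdual hexpR,
    fun i j => ⟨hinj i j, honto i j, hblocks i j, htb i j⟩, ?_⟩
  constructor
  · intro h i j
    have h1 := (htb i j).1 (h i j) 0 (Nat.zero_le _)
    simpa using h1
  · intro h i j
    exact (htb i j).2 fun k _ => h _ _

end

section count

variable {I : Type} [Fintype I] (g : I → ℕ) (r : ℕ) (hr : ∀ i, r < g i)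
  (E : IntermediateField ℚ ℂ) [FiniteDimensional ℚ E]

include hr

theorem count_tb : AlmostAll g fun q f => TBForRankOver E q r f :=
  count_of_goodU (splitPrimes E) (dense_splitPrimes E) g
    (fun i => (Nat.zero_le r).trans_lt (hr i)) (fun q f => TBForRankOver E q r f)
    fun _ hq x hx => tb_of_good g E hq.one_lt r hr x hx

end count

end Pool.Agent.X300.RB
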