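import Mathlib
import Pool.Agent.Y156.L.Props

/-!
# Cycle classes of products with almost all abelian varieties: definitions
-/

set_option autoImplicit false

namespace Pool.Agent.X300.RB

open Polynomial Pool.Agent.Y156.L

variable {K : Type} [Field K] {A : AbelianData K}

/-- The Frobenius endomorphism of `A × U` acts on `H^(2 j)(A × U, j)` as multiplication by `Q ^ j`, as
on the cycles of codimension `j`. -/
def IsPureCycles (T : RelData A) (Q : ℕ) : Prop :=
  ∀ (j : ℤ) (m : T.M), T.DegM (2 * j) j m → T.InvM Q (2 * j) j m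

/-- The Frobenius endomorphism of `U` satisfies on the elements of `H^(2 j)(A × U, j)` which the
Frobenius endomorphism of `A × U` multiplies by `Q ^ j`, for all `j`, a nonzero rational polynomial
whose roots in `ℂ` lie, up to powers, in a group generated by the nonzero elements of the number
field `E` and `r` numbers. -/
def HasCycleRank (T : RelData A) (Q : ℕ) (E : IntermediateField ℚ ℂ) (r : ℕ) : Prop :=
  ∀ j : ℤ, ∃ χ : ℚ[X], χ ≠ 0 ∧ GroupOfRank E r {ρ : ℂ | aeval ρ χ = 0} ∧
    ∀ m, T.InvM Q (2 * j) j m → aeval T.frobM χ m = 0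

/-- The cycle class map `H^(2 j)(U, j) → R^(2 j)(U, j)` is a bijection onto the Frobenius
invariants. -/
def CycleIsoN {T R : RelData A} (ρ : Regulator T R) (Q : ℕ) (j : ℤ) : Prop :=
  ∀ w, R.InvN Q (2 * j) j w → ∃! n, T.DegN (2 * j) j n ∧ ρ.regN n = w

/-- The cycle class map `H^(2 j)(A × U, j) → R^(2 j)(A × U, j)` is a bijection onto the Frobenius
invariants. -/
def CycleIsoM {T R : RelData A} (ρ : Regulator T R) (Q : ℕ) (j : ℤ) : Prop :=
  ∀ w, R.InvM Q (2 * j) j w → ∃! m, T.DegM (2 * j) j m ∧ ρ.regM m = w

/-- The Kunneth formula for cycle classes: every element of `H^(2 j)(A × U, j)` which Frobenius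
multiplies by `Q ^ j` is the sum of the products of the `D t` with unique elements of
`H^(2 (j - c t))(U, j - c t)` which Frobenius multiplies by `Q ^ (j - c t)`. -/
def CycleKunneth (T : RelData A) (Q : ℕ) {J : Type} [Fintype J] (c : J → ℕ) (D : J → A.CH) : Prop :=
  ∀ (j : ℤ) (m : T.M), T.InvM Q (2 * j) j m → ∃! z : J → T.N,
    (∀ t, T.InvN Q (2 * (j - c t)) (j - c t) (z t)) ∧ m = ∑ t, T.mul (D t) (z t)

/-- `CyclesForRankOver E q r f`: for every abelian variety `A` as in `IsAbelian` there are finitely
many products `D t` of divisor classes on `A`, such that for all `T` (Chow groups) and `R`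
(`ℓ`-adic groups) relative to any scheme `U`, with the formal properties and of rank at most `r`
over `E` in the bidegrees `(2 j, j)`, `T` pure, and all cycle class maps from `T` to `R`: the Kunneth
formula holds for `T` and for `R`, the cycle class map of `A × U` in the bidegree `(2 j, j)` is a
bijection onto the Frobenius invariants if and only if those of `U` in the bidegrees
`(2 (j - k), j - k)`, `0 ≤ k ≤ dim A`, are, and it is so for `A × U` and all `j` if and only if it is
so for `U` and all `j`. -/
def CyclesForRankOver (E : IntermediateField ℚ ℂ) (q r : ℕ) {I : Type} (f : I → ℤ[X]) : Prop :=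
  ∀ (K : Type) [Field K] [CharZero K] (A : AbelianData K) (s : ℕ), IsAbelian A q s f →
    ∃ (J : Type) (_ : Fintype J) (c : J → ℕ) (D : J → A.CH), IsFamily A c D ∧
      ∀ (T R : RelData A) (ρ : Regulator T R), IsRel (q ^ s) T → IsRel (q ^ s) R →
        IsPureCycles T (q ^ s) → HasCycleRank T (q ^ s) E r → HasCycleRank R (q ^ s) E r →
        IsRegulator ρ →
        CycleKunneth T (q ^ s) c D ∧ CycleKunneth R (q ^ s) c D ∧
        (∀ j : ℤ, CycleIsoM ρ (q ^ s) j ↔
            ∀ k : ℕ, k ≤ A.dim → CycleIsoN ρ (q ^ s) (j - k)) ∧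
        ((∀ j : ℤ, CycleIsoM ρ (q ^ s) j) ↔ ∀ j : ℤ, CycleIsoN ρ (q ^ s) j)

end Pool.Agent.X300.RB
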