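import Mathlib
import Pool.Agent.X300.RB.Kun

/-!
# The Kunneth formula in one bidegree
-/

set_option autoImplicit false
set_option linter.unusedSectionVars false

namespace Pool.Agent.X300.RB

open Module Polynomial Pool.Agent.W484.TB Pool.Agent.W484.HS Pool.Agent.W521.Frob
  Pool.Agent.W521.Count Pool.Agent.W521.Bad Pool.Agent.W521.Descent Pool.Agent.W521.Density
  Pool.Agent.Y156.L

variable {K : Type} [Field K] [CharZero K] {A : AbelianData K}

variable {I : Type} [Finite I] (g : I → ℕ) (E : IntermediateField ℚ ℂ) [FiniteDimensional ℚ E]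
  {q : ℕ} (hq : 1 < q) (r : ℕ) (hr : ∀ i, r < g i)
  (x : (Σ i, Fin (g i)) → ℤ) (hx : GoodU (splitPrimes E) g q x)

include hq hr hx in
/-- **The Kunneth formula for generalized invariants.** -/
theorem exists_classes_filt {s : ℕ} (hA : IsAbelian A q s (fun i => weil q (polys g x i))) :
    ∃ (J : Type) (_ : Fintype J) (c : J → ℕ) (D E' : J → A.CH), IsFamily A c D ∧
      IsDual A c D E' ∧ q ^ s ≠ 0 ∧
      ∀ T : RelData A, IsRel (q ^ s) T → ∀ (j : ℤ) (G : Submodule ℚ T.M),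
        (∀ m ∈ G, T.frobM m ∈ G) → (∃ χ : ℚ[X], χ ≠ 0 ∧ GroupOfRank E r {ρ : ℂ | aeval ρ χ = 0} ∧
          ∀ m ∈ G, aeval T.frobM χ m = 0) → ∀ n : ℕ,
        ∀ m ∈ filt (T.act A.frob) T.frobM G (((q ^ s : ℕ) : ℚ) ^ j) n,
          m = ∑ t, T.times (D t) (T.pair (E' t) m) ∧
          m = ∑ t, T.times (E' t) (T.pair (D t) m) := by
  obtain ⟨n, b, α, hb, hα, hα0, hgood⟩ := exists_good_basis g E hq r hr x hx hA
  have hs := hA.pos
  have hQ1 : 1 < q ^ s := Nat.one_lt_pow hs.ne' hq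
  have hX1 : (Polynomial.X - 1 : ℚ[X]) ≠ 0 := by
    have := Polynomial.X_sub_C_ne_zero (1 : ℚ)
    rwa [map_one] at this
  have h1 : ∀ t (c : ℤ), α t = ((q ^ s : ℕ) : K) ^ c →
      ∃ l : ℕ, α t = ((q ^ s : ℕ) : K) ^ l ∧ b t ∈ NK A l := by
    intro t c hc
    exact hgood _ hX1 (Pool.Agent.W484.CH.rank_one E r) 1
      (by rw [map_sub, aeval_X, map_one, sub_self]) t c (by rw [mul_one]; exact hc)
  obtain ⟨J, hJ, c, D, E', hdual, hD, hE, hN⟩ := exists_dual hA hQ1 b α hb h1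
  have hN' := span_dual hA hQ1 b α hb h1 hdual hE hN
  have hfam : IsFamily A c D :=
    ⟨hD, hdual.le, fun k hk => exists_codim hA hQ1 b α hb h1 hN hk⟩
  refine ⟨J, hJ, c, D, E', hfam, hdual, by omega, fun T hT j G hG hrk k m hm => ?_⟩
  obtain ⟨χ, hχ, hrank, hkillψ⟩ := hrk
  obtain ⟨P, hP, hmix⟩ := exists_kill b α hb hα hα0 χ ((((q ^ s : ℕ) : ℚ)) ^ j) (by
    intro ρ hρ t ht
    obtain ⟨l, -, hl⟩ := hgood χ hχ hrank ρ hρ t j (by rw [ht]; push_cast; rfl)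
    exact ⟨l, hl⟩)
  have hcomm : ∀ m, T.frobM (T.act A.frob m) = T.act A.frob (T.frobM m) :=
    fun m => hT.frob_act _ m
  have hc0 := coeff_zero_ne hrank
  have hV := filt_phi (T.act A.frob) T.frobM G (((q ^ s : ℕ) : ℚ) ^ j) hG hcomm χ hc0 hkillψ k
  have hR := filt_rev_pow (T.act A.frob) T.frobM G (((q ^ s : ℕ) : ℚ) ^ j) hG hcomm χ hc0
    hkillψ k
  exact ⟨rel_core hA hT hdual P _ hP.pow_right
      (fun w => act_proj_mix hA hdual hN (hmix w)) _ hV hR hm,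
    rel_core hA hT hdual.symm P _ hP.pow_right
      (fun w => act_proj_mix hA hdual.symm hN' (hmix w)) _ hV hR hm⟩

theorem mem_filt_invSub {T : RelData A} {Q : ℕ} {i j : ℤ} {m : T.M} (hm : T.InvM Q i j m) :
    m ∈ filt (T.act A.frob) T.frobM (invSub T Q i j) ((Q : ℚ) ^ j) 1 := by
  rw [mem_filt_succ]
  refine ⟨hm, ?_⟩
  rw [filt, Submodule.mem_bot, sub_eq_zero]
  exact (inv_iff.1 hm).2

end Pool.Agent.X300.RB
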