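import Mathlib
import Pool.Agent.X300.RB.Kun2
import Pool.Agent.X300.RB.CycDefs

/-!
# Cycle classes of products with almost all abelian varieties
-/

set_option autoImplicit false
set_option linter.unusedSectionVars false

namespace Pool.Agent.X300.RB

open Module Polynomial Pool.Agent.W484.TB Pool.Agent.W484.HS Pool.Agent.W521.Frob
  Pool.Agent.W521.Count Pool.Agent.W521.Bad Pool.Agent.W521.Descent Pool.Agent.W521.Density
  Pool.Agent.Y156.L

section

variable {K : Type} [Field K] [CharZero K] {A : AbelianData K} {J : Type} [Fintype J]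
  {c : J → ℕ} {D E : J → A.CH} {Q : ℕ}

theorem onto_iff_at (hF : IsFamily A c D) (h : IsDual A c D E) (hQ : Q ≠ 0) {T R : RelData A}
    (hT : IsRel Q T) (hR : IsRel Q R) {ρ : Regulator T R} (hc : IsRegulator ρ) (i j : ℤ)
    (hexp : ∀ (m : R.M), R.InvM Q i j m → m = ∑ t, R.times (D t) (R.pair (E t) m)) :
    OntoM ρ Q i j ↔ ∀ k : ℕ, k ≤ A.dim → OntoN ρ Q (i - 2 * k) (j - k) := by
  constructor
  · intro h0 k hk w hw
    obtain ⟨t, rfl⟩ := hF.exists_eq k hk
    have h1 := inv_times hQ hR (h.left t) hw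
    rw [sub_add_cancel, sub_add_cancel] at h1
    obtain ⟨m, hm1, hm2⟩ := h0 _ h1
    change ρ.cM m = _ at hm2
    refine ⟨T.pair (E t) m, hT.pair_mem (by have := h.le t; omega) (h.right t) hm1, ?_⟩
    change ρ.cN (T.pair (E t) m) = w
    classical
    rw [reg_push hc, hm2, dualpair hR h t t w, if_pos rfl]
  · intro h0 w hw
    have h1 := fun t => inv_pair hQ hR h hw (hexp w hw) t
    choose n hn1 hn2 using fun t => h0 (c t) (h.le t) _ (h1 t)
    refine ⟨∑ t, T.times (D t) (n t), ?_, ?_⟩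
    · change _ ∈ T.grM i j
      refine Submodule.sum_mem _ fun t _ => ?_
      have h2 := hT.times_mem (h.left t) (hn1 t)
      rwa [sub_add_cancel, sub_add_cancel] at h2
    · change ρ.cM _ = w
      rw [map_sum]
      conv_rhs => rw [hexp w hw]
      refine Finset.sum_congr rfl fun t _ => ?_
      have h3 : ρ.cN (n t) = R.pair (E t) w := hn2 t
      rw [reg_mul hc, h3]

theorem inj_iff_at (hF : IsFamily A c D) (h : IsDual A c D E) {T R : RelData A}
    (hT : IsRel Q T) {ρ : Regulator T R} (hc : IsRegulator ρ) (i j : ℤ)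
    (hexp : ∀ m ∈ T.grM i j, m = ∑ t, T.times (D t) (T.pair (E t) m)) :
    InjectiveM ρ i j ↔ ∀ k : ℕ, k ≤ A.dim → InjectiveN ρ (i - 2 * k) (j - k) := by
  constructor
  · intro h0 k hk n hn hcn
    change ρ.cN n = 0 at hcn
    obtain ⟨t, rfl⟩ := hF.exists_eq k hk
    have h1 := hT.times_mem (h.left t) hn
    rw [sub_add_cancel, sub_add_cancel] at h1
    have h2 := h0 _ h1 (by change ρ.cM _ = 0; rw [reg_mul hc, hcn, map_zero])
    classical
    have h3 := dualpair hT h t t n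
    rw [h2, map_zero, if_pos rfl] at h3
    exact h3.symm
  · intro h0 m hm hcm
    change ρ.cM m = 0 at hcm
    rw [hexp m hm]
    refine Finset.sum_eq_zero fun t _ => ?_
    have h1 : T.pair (E t) m = 0 := by
      refine h0 (c t) (h.le t) _ (hT.pair_mem (by have := h.le t; omega) (h.right t) hm) ?_
      change ρ.cN _ = 0
      rw [reg_push hc, hcm, map_zero]
    rw [h1, map_zero]

theorem cycleIsoN_iff {T R : RelData A} (ρ : Regulator T R) (j : ℤ) :
    CycleIsoN ρ Q j ↔ InjectiveN ρ (2 * j) j ∧ OntoN ρ Q (2 * j) j := by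
  constructor
  · intro h
    refine ⟨fun n hn h0 => ?_, fun w hw => (h w hw).exists⟩
    have h1 : R.InvN Q (2 * j) j 0 := by
      rw [invN_iff, map_zero, smul_zero]
      exact ⟨Submodule.zero_mem _, rfl⟩
    exact (h 0 h1).unique ⟨hn, h0⟩ ⟨Submodule.zero_mem _, map_zero ρ.cN⟩
  · rintro ⟨h1, h2⟩ w hw
    obtain ⟨n, hn, hw2⟩ := h2 w hw
    refine ⟨n, ⟨hn, hw2⟩, ?_⟩
    rintro n' ⟨hn', hw'⟩
    rw [← sub_eq_zero]
    refine h1 _ (Submodule.sub_mem _ hn' hn) ?_
    change ρ.cN (n' - n) = 0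
    rw [map_sub, sub_eq_zero]
    exact hw'.trans hw2.symm

theorem cycleIsoM_iff {T R : RelData A} (ρ : Regulator T R) (j : ℤ) :
    CycleIsoM ρ Q j ↔ InjectiveM ρ (2 * j) j ∧ OntoM ρ Q (2 * j) j := by
  constructor
  · intro h
    refine ⟨fun n hn h0 => ?_, fun w hw => (h w hw).exists⟩
    have h1 : R.InvM Q (2 * j) j 0 := by
      rw [inv_iff, map_zero, map_zero, smul_zero]
      exact ⟨Submodule.zero_mem _, rfl⟩
    exact (h 0 h1).unique ⟨hn, h0⟩ ⟨Submodule.zero_mem _, map_zero ρ.cM⟩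
  · rintro ⟨h1, h2⟩ w hw
    obtain ⟨n, hn, hw2⟩ := h2 w hw
    refine ⟨n, ⟨hn, hw2⟩, ?_⟩
    rintro n' ⟨hn', hw'⟩
    rw [← sub_eq_zero]
    refine h1 _ (Submodule.sub_mem _ hn' hn) ?_
    change ρ.cM (n' - n) = 0
    rw [map_sub, sub_eq_zero]
    exact hw'.trans hw2.symm

theorem cycleKunneth_of (hQ : Q ≠ 0) {T : RelData A} (hT : IsRel Q T) (h : IsDual A c D E)
    (hexp : ∀ (j : ℤ) (m : T.M), T.InvM Q (2 * j) j m →
      m = ∑ t, T.times (D t) (T.pair (E t) m)) : CycleKunneth T Q c D := by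
  intro j m hm
  have h0 := hexp j m hm
  refine ⟨fun t => T.pair (E t) m, ⟨fun t => ?_, h0⟩, ?_⟩
  · have h1 := inv_pair hQ hT h hm h0 t
    rwa [← mul_sub] at h1
  · rintro z ⟨-, hz⟩
    funext t
    rw [hz]
    exact (pair_sum hT h t z).symm

end

section

variable {I : Type} [Finite I] (g : I → ℕ) (E : IntermediateField ℚ ℂ) [FiniteDimensional ℚ E]
  {q : ℕ} (hq : 1 < q) (r : ℕ) (hr : ∀ i, r < g i)
  (x : (Σ i, Fin (g i)) → ℤ) (hx : GoodU (splitPrimes E) g q x)

include hq hr hx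

theorem cycles_of_good : CyclesForRankOver E q r (fun i => weil q (polys g x i)) := by
  intro K _ _ A s hA
  obtain ⟨J, hJ, c, D, E', hF, hdual, hQ, hmain⟩ := exists_classes_filt g E hq r hr x hx hA
  refine ⟨J, hJ, c, D, hF, fun T R ρ hT hR hpure hrT hrR hρ => ?_⟩
  have hexp : ∀ T : RelData A, IsRel (q ^ s) T → HasCycleRank T (q ^ s) E r →
      ∀ (j : ℤ) (m : T.M), T.InvM (q ^ s) (2 * j) j m →
        m = ∑ t, T.times (D t) (T.pair (E' t) m) := fun T hT hr j m hm =>
    (hmain T hT j (invSub T (q ^ s) (2 * j) j) (fun m hm => inv_frob hT hm) (hr j) 1 m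
      (mem_filt_invSub hm)).1
  have hexpT := hexp T hT hrT
  have hexpR := hexp R hR hrR
  have hiso : ∀ j : ℤ, CycleIsoM ρ (q ^ s) j ↔
      ∀ k : ℕ, k ≤ A.dim → CycleIsoN ρ (q ^ s) (j - k) := by
    intro j
    rw [cycleIsoM_iff, inj_iff_at hF hdual hT hρ (2 * j) j (fun m hm => hexpT j m (hpure j m hm)),
      onto_iff_at hF hdual hQ hT hR hρ (2 * j) j (hexpR j)]
    simp only [cycleIsoN_iff, mul_sub]
    constructor
    · rintro ⟨h1, h2⟩ k hk
      exact ⟨h1 k hk, h2 k hk⟩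
    · intro h
      exact ⟨fun k hk => (h k hk).1, fun k hk => (h k hk).2⟩
  refine ⟨cycleKunneth_of hQ hT hdual hexpT, cycleKunneth_of hQ hR hdual hexpR, hiso, ?_⟩
  constructor
  · intro h j
    have h1 := (hiso j).1 (h j) 0 (Nat.zero_le _)
    simpa using h1
  · intro h j
    exact (hiso j).2 fun k _ => h _

end

section count

variable {I : Type} [Fintype I] (g : I → ℕ) (r : ℕ) (hr : ∀ i, r < g i)
  (E : IntermediateField ℚ ℂ) [FiniteDimensional ℚ E]

include hr

theorem count_cycles : AlmostAll g fun q f => CyclesForRankOver E q r f :=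
  count_of_goodU (splitPrimes E) (dense_splitPrimes E) g
    (fun i => (Nat.zero_le r).trans_lt (hr i)) (fun q f => CyclesForRankOver E q r f)
    fun _ hq x hx => cycles_of_good g E hq.one_lt r hr x hx

end count

end Pool.Agent.X300.RB
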