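import Mathlib
import Pool.Agent.X300.RB.CycDefs

/-!
# Surjectivity of the cycle class maps of products with almost all abelian varieties: definitions
-/

set_option autoImplicit false

namespace Pool.Agent.X300.RB

open Polynomial Pool.Agent.Y156.L

/-- `TateForSingularOver E q r f`: for every abelian variety `A` as in `IsAbelian` there are finitely
many products `D t` of divisor classes on `A`, such that for all `R` (`ℓ`-adic homology) relative to
any variety `Z`, with the formal properties and of rank at most `r` over `E` in the bidegrees
`(2 j, j)`: the Kunneth formula holds for the Frobenius invariants, and for all `T` (Chow groups,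
tensored with `ℚ_ℓ`) relative to `Z` with the formal properties and all cycle class maps from `T` to
`R`, the one of `A × Z` in the bidegree `(2 j, j)` is onto the Frobenius invariants if and only if
those of `Z` in the bidegrees `(2 (j - k), j - k)`, `0 ≤ k ≤ dim A`, are; so all those of `A × Z` are
onto if and only if all those of `Z` are. -/
def TateForSingularOver (E : IntermediateField ℚ ℂ) (q r : ℕ) {I : Type} (f : I → ℤ[X]) : Prop :=
  ∀ (K : Type) [Field K] [CharZero K] (A : AbelianData K) (s : ℕ), IsAbelian A q s f →
    ∃ (J : Type) (_ : Fintype J) (c : J → ℕ) (D : J → A.CH), IsFamily A c D ∧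
      ∀ R : RelData A, IsRel (q ^ s) R → HasCycleRank R (q ^ s) E r →
        CycleKunneth R (q ^ s) c D ∧
        ∀ (T : RelData A) (ρ : Regulator T R), IsRel (q ^ s) T → IsRegulator ρ →
          (∀ j : ℤ, OntoM ρ (q ^ s) (2 * j) j ↔
            ∀ k : ℕ, k ≤ A.dim → OntoN ρ (q ^ s) (2 * (j - k)) (j - k)) ∧
          ((∀ j : ℤ, OntoM ρ (q ^ s) (2 * j) j) ↔ ∀ j : ℤ, OntoN ρ (q ^ s) (2 * j) j)

end Pool.Agent.X300.RB
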