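import Mathlib
import Pool.Agent.X300.RB.Cyc
import Pool.Agent.X300.RB.SurjDefs

/-!
# Surjectivity of the cycle class maps of products with almost all abelian varieties
-/

set_option autoImplicit false
set_option linter.unusedSectionVars false

namespace Pool.Agent.X300.RB

open Module Polynomial Pool.Agent.W484.TB Pool.Agent.W484.HS Pool.Agent.W521.Frob
  Pool.Agent.W521.Count Pool.Agent.W521.Bad Pool.Agent.W521.Descent Pool.Agent.W521.Density
  Pool.Agent.Y156.L

section

variable {I : Type} [Finite I] (g : I → ℕ) (E : IntermediateField ℚ ℂ) [FiniteDimensional ℚ E]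
  {q : ℕ} (hq : 1 < q) (r : ℕ) (hr : ∀ i, r < g i)
  (x : (Σ i, Fin (g i)) → ℤ) (hx : GoodU (splitPrimes E) g q x)

include hq hr hx

theorem surj_of_good : TateForSingularOver E q r (fun i => weil q (polys g x i)) := by
  intro K _ _ A s hA
  obtain ⟨J, hJ, c, D, E', hF, hdual, hQ, hmain⟩ := exists_classes_filt g E hq r hr x hx hA
  refine ⟨J, hJ, c, D, hF, fun R hR hrR => ?_⟩
  have hexpR : ∀ (j : ℤ) (m : R.M), R.InvM (q ^ s) (2 * j) j m →
      m = ∑ t, R.times (D t) (R.pair (E' t) m) := fun j m hm =>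
    (hmain R hR j (invSub R (q ^ s) (2 * j) j) (fun m hm => inv_frob hR hm) (hrR j) 1 m
      (mem_filt_invSub hm)).1
  refine ⟨cycleKunneth_of hQ hR hdual hexpR, fun T ρ hT hρ => ?_⟩
  have honto : ∀ j : ℤ, OntoM ρ (q ^ s) (2 * j) j ↔
      ∀ k : ℕ, k ≤ A.dim → OntoN ρ (q ^ s) (2 * (j - k)) (j - k) := by
    intro j
    rw [onto_iff_at hF hdual hQ hT hR hρ (2 * j) j (hexpR j)]
    simp only [mul_sub]
  refine ⟨honto, ?_, ?_⟩
  · intro h j
    have h1 := (honto j).1 (h j) 0 (Nat.zero_le _)
    simpa using h1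
  · intro h j
    exact (honto j).2 fun k _ => h _

end

section count

variable {I : Type} [Fintype I] (g : I → ℕ) (r : ℕ) (hr : ∀ i, r < g i)
  (E : IntermediateField ℚ ℂ) [FiniteDimensional ℚ E]

include hr

theorem count_surj : AlmostAll g fun q f => TateForSingularOver E q r f :=
  count_of_goodU (splitPrimes E) (dense_splitPrimes E) g
    (fun i => (Nat.zero_le r).trans_lt (hr i)) (fun q f => TateForSingularOver E q r f)
    fun _ hq x hx => surj_of_good g E hq.one_lt r hr x hx

end count

end Pool.Agent.X300.RB
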