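import Mathlib
import Pool.Agent.Y156.L.Props

/-!
# Theories with coefficients in the field `K`: definitions
-/

set_option autoImplicit false

namespace Pool.Agent.X300.RB

open Polynomial Pool.Agent.Y156.L

variable {K : Type} [Field K] {A : AbelianData K}

/-- `GenVecM R Q i j n m`: the element `m` lies in `H^i(A × Z, j)` and is killed by
`(F - Q ^ j) ^ n`, where `F` is the Frobenius endomorphism of `A × Z`. -/
def GenVecM (R : RelData A) (Q : ℕ) (i j : ℤ) : ℕ → R.M → Prop
  | 0, m => m = 0
  | n + 1, m => R.DegM i j m ∧ GenVecM R Q i j n (R.app A.frob (R.FM m) - R.scaleM ((Q : ℚ) ^ j) m)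

/-- `GenVecN R Q i j n m`: the element `m` lies in `H^i(Z, j)` and is killed by `(F - Q ^ j) ^ n`,
where `F` is the Frobenius endomorphism of `Z`. -/
def GenVecN (R : RelData A) (Q : ℕ) (i j : ℤ) : ℕ → R.N → Prop
  | 0, m => m = 0
  | n + 1, m => R.DegN i j m ∧ GenVecN R Q i j n (R.FN m - R.scaleN ((Q : ℚ) ^ j) m)

/-- The theory `R` has coefficients in the field `K`: all operations are `K`-linear, and the groups of
`Z` have finite dimension. -/
structure IsLinear (R : RelData A) [Module K R.N] [Module K R.M] : Prop where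
  degN : ∀ {i j : ℤ} (a : K) {n : R.N}, R.DegN i j n → R.DegN i j (a • n)
  degM : ∀ {i j : ℤ} (a : K) {m : R.M}, R.DegM i j m → R.DegM i j (a • m)
  mul : ∀ (x : A.CH) (a : K) (n : R.N), R.mul x (a • n) = a • R.mul x n
  push : ∀ (x : A.CH) (a : K) (m : R.M), R.push x (a • m) = a • R.push x m
  FN : ∀ (a : K) (n : R.N), R.FN (a • n) = a • R.FN n
  FM : ∀ (a : K) (m : R.M), R.FM (a • m) = a • R.FM m
  app : ∀ (a : K) (m : R.M), R.app A.frob (a • m) = a • R.app A.frob m
  finite : ∀ i j : ℤ, FiniteDimensional K (Submodule.span K {n | R.DegN i j n})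

/-- The multiplicity of the eigenvalue `Q ^ j` of Frobenius on `H^i(Z, j)`: the dimension of the
space of the elements killed by a power of `F - Q ^ j`. -/
noncomputable def multN (R : RelData A) [Module K R.N] (Q : ℕ) (i j : ℤ) : ℕ :=
  Module.finrank K (Submodule.span K {m | ∃ n, GenVecN R Q i j n m})

/-- The multiplicity of the eigenvalue `Q ^ j` of Frobenius on `H^i(A × Z, j)`. -/
noncomputable def multM (R : RelData A) [Module K R.M] (Q : ℕ) (i j : ℤ) : ℕ :=
  Module.finrank K (Submodule.span K {m | ∃ n, GenVecM R Q i j n m})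

end Pool.Agent.X300.RB
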