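import Mathlib
import Pool.Agent.X300.RB.KDefs

/-!
# Jannsen's conjectures for varieties over finite fields: definitions
-/

set_option autoImplicit false

namespace Pool.Agent.X300.RB

open Polynomial TensorProduct Pool.Agent.Y156.L

variable {K : Type} [Field K] [CharZero K] {A : AbelianData K}

/-- The theory `T` consists of the groups of cycles modulo homological equivalence, with rational
coefficients: the cycle class maps from `T` to the `ℓ`-adic theory `R` are injective in the bidegrees
`(2 j, j)`, and cycle classes are invariant under Frobenius. -/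
structure IsHomological {T R : RelData A} (ρ : Regulator T R) (Q : ℕ) : Prop where
  injectiveN : ∀ j : ℤ, InjectiveN ρ (2 * j) j
  injectiveM : ∀ j : ℤ, InjectiveM ρ (2 * j) j
  invariantN : ∀ (j : ℤ) (n : T.N), T.DegN (2 * j) j n → R.InvN Q (2 * j) j (ρ.regN n)
  invariantM : ∀ (j : ℤ) (m : T.M), T.DegM (2 * j) j m → R.InvM Q (2 * j) j (ρ.regM m)

/-- The map `K ⊗ B → R^(2 j)(Z, j)`, where `B` is the group of `Z` of the theory `T` in the bidegree
`(2 j, j)`. -/
noncomputable def compareN {T R : RelData A} [Module K R.N] (ρ : Regulator T R) (j : ℤ) :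
    K ⊗[ℚ] (T.grN (2 * j) j) →ₗ[K] R.N :=
  LinearMap.liftBaseChange K (ρ.cN ∘ₗ (T.grN (2 * j) j).subtype)

/-- The map `K ⊗ B → R^(2 j)(A × Z, j)`, where `B` is the group of `A × Z` of the theory `T` in the
bidegree `(2 j, j)`. -/
noncomputable def compareM {T R : RelData A} [Module K R.M] (ρ : Regulator T R) (j : ℤ) :
    K ⊗[ℚ] (T.grM (2 * j) j) →ₗ[K] R.M :=
  LinearMap.liftBaseChange K (ρ.cM ∘ₗ (T.grM (2 * j) j).subtype)

/-- Jannsen's conjectures for `Z` in the bidegree `(2 j, j)`: the map from `K ⊗ B` to the Frobenius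
invariants is bijective, and the dimension of `B` is the multiplicity of the eigenvalue `Q ^ j` of
Frobenius. -/
structure JannsenN {T R : RelData A} [Module K R.N] (ρ : Regulator T R) (Q : ℕ) (j : ℤ) :
    Prop where
  injective : Function.Injective (compareN ρ j)
  onto : ∀ w, R.InvN Q (2 * j) j w → w ∈ LinearMap.range (compareN ρ j)
  order : Module.finrank ℚ (T.grN (2 * j) j) = multN R Q (2 * j) j

/-- Jannsen's conjectures for `A × Z` in the bidegree `(2 j, j)`: the map from `K ⊗ B` to the
Frobenius invariants is bijective, and the dimension of `B` is the multiplicity of the eigenvalue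
`Q ^ j` of Frobenius. -/
structure JannsenM {T R : RelData A} [Module K R.M] (ρ : Regulator T R) (Q : ℕ) (j : ℤ) :
    Prop where
  injective : Function.Injective (compareM ρ j)
  onto : ∀ w, R.InvM Q (2 * j) j w → w ∈ LinearMap.range (compareM ρ j)
  order : Module.finrank ℚ (T.grM (2 * j) j) = multM R Q (2 * j) j

/-- The Frobenius endomorphism of `Z` satisfies, on all of `H^(2 j)(A × Z, j)`, for all `j`, a nonzero
rational polynomial whose roots in `ℂ` lie, up to powers, in a group generated by the nonzero elements
of the number field `E` and `r` numbers. -/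
def HasRankDiag (T : RelData A) (E : IntermediateField ℚ ℂ) (r : ℕ) : Prop :=
  ∀ j : ℤ, ∃ χ : ℚ[X], χ ≠ 0 ∧ GroupOfRank E r {ρ : ℂ | aeval ρ χ = 0} ∧
    ∀ m, T.DegM (2 * j) j m → aeval T.frobM χ m = 0

/-- `JannsenForRankOver E q r f`: for every abelian variety `A` as in `IsAbelian` there are finitely
many products `D t` of divisor classes on `A`, such that for all `R` (`ℓ`-adic homology, with
coefficients in `K`) relative to any variety `Z`, with the formal properties and of rank at most `r`
over `E`, and for the theory `T` of cycles modulo homological equivalence: Jannsen's conjectures hold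
for `A × Z` in the bidegree `(2 j, j)` if and only if they hold for `Z` in the bidegrees
`(2 (j - k), j - k)`, `0 ≤ k ≤ dim A`; so they hold for `A × Z` and all `j` if and only if they hold
for `Z` and all `j`. -/
def JannsenForRankOver (E : IntermediateField ℚ ℂ) (q r : ℕ) {I : Type} (f : I → ℤ[X]) : Prop :=
  ∀ (K : Type) [Field K] [CharZero K] (A : AbelianData K) (s : ℕ), IsAbelian A q s f →
    ∃ (J : Type) (_ : Fintype J) (c : J → ℕ) (D : J → A.CH), IsFamily A c D ∧
      ∀ (T R : RelData A) [Module K R.N] [Module K R.M] (ρ : Regulator T R), IsRel (q ^ s) T →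
        IsRel (q ^ s) R → HasRankDiag R E r → IsLinear R → IsRegulator ρ →
        IsHomological ρ (q ^ s) →
        (∀ j : ℤ, JannsenM ρ (q ^ s) j ↔ ∀ k : ℕ, k ≤ A.dim → JannsenN ρ (q ^ s) (j - k)) ∧
        ((∀ j : ℤ, JannsenM ρ (q ^ s) j) ↔ ∀ j : ℤ, JannsenN ρ (q ^ s) j)

end Pool.Agent.X300.RB
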