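import Mathlib
import Pool.Agent.X300.RB.Kun2
import Pool.Agent.X300.RB.KDefs

/-!
# Multiplicities of Frobenius eigenvalues
-/

set_option autoImplicit false
set_option linter.unusedSectionVars false

namespace Pool.Agent.X300.RB

open Module Polynomial Pool.Agent.Y156.L

variable {K : Type} [Field K] [CharZero K] {A : AbelianData K} {Q : ℕ} {R : RelData A}

theorem genVecM_iff {i j : ℤ} (n : ℕ) :
    ∀ {m : R.M}, GenVecM R Q i j n m ↔ m ∈ genM R Q i j n := by
  induction n with
  | zero =>
    intro m
    rw [mem_genM_zero]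
    rfl
  | succ n ih =>
    intro m
    rw [mem_genM_succ, ← ih]
    rfl

theorem genVecN_iff {i j : ℤ} (n : ℕ) :
    ∀ {m : R.N}, GenVecN R Q i j n m ↔ m ∈ genN R Q i j n := by
  induction n with
  | zero =>
    intro m
    rw [mem_genN_zero]
    rfl
  | succ n ih =>
    intro m
    rw [mem_genN_succ, ← ih]
    rfl

theorem genN_le_succ (i j : ℤ) (n : ℕ) : genN R Q i j n ≤ genN R Q i j (n + 1) := by
  induction n with
  | zero =>
    intro y hy
    rw [mem_genN_zero] at hy
    rw [hy]
    exact Submodule.zero_mem _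
  | succ n ih =>
    intro y hy
    rw [mem_genN_succ] at hy ⊢
    exact ⟨hy.1, ih hy.2⟩

theorem genM_le_succ (i j : ℤ) (n : ℕ) : genM R Q i j n ≤ genM R Q i j (n + 1) := by
  induction n with
  | zero =>
    intro y hy
    rw [mem_genM_zero] at hy
    rw [hy]
    exact Submodule.zero_mem _
  | succ n ih =>
    intro y hy
    rw [mem_genM_succ] at hy ⊢
    exact ⟨hy.1, ih hy.2⟩

theorem genN_mono (i j : ℤ) {n n' : ℕ} (h : n ≤ n') : genN R Q i j n ≤ genN R Q i j n' :=
  monotone_nat_of_le_succ (genN_le_succ i j) h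

theorem genM_mono (i j : ℤ) {n n' : ℕ} (h : n ≤ n') : genM R Q i j n ≤ genM R Q i j n' :=
  monotone_nat_of_le_succ (genM_le_succ i j) h

variable [Module K R.N] [Module K R.M] (hL : IsLinear R)

include hL in
theorem smul_genN (i j : ℤ) (n : ℕ) (a : K) : ∀ m ∈ genN R Q i j n, a • m ∈ genN R Q i j n := by
  induction n with
  | zero =>
    intro y hy
    rw [mem_genN_zero] at hy ⊢
    rw [hy, smul_zero]
  | succ n ih =>
    intro y hy
    rw [mem_genN_succ] at hy ⊢
    refine ⟨hL.degN a hy.1, ?_⟩
    have h1 := ih _ hy.2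
    have h2 : R.frobN (a • y) = a • R.frobN y := hL.FN a y
    rwa [smul_sub, smul_comm, ← h2] at h1

include hL in
theorem smul_genM (i j : ℤ) (n : ℕ) (a : K) : ∀ m ∈ genM R Q i j n, a • m ∈ genM R Q i j n := by
  induction n with
  | zero =>
    intro y hy
    rw [mem_genM_zero] at hy ⊢
    rw [hy, smul_zero]
  | succ n ih =>
    intro y hy
    rw [mem_genM_succ] at hy ⊢
    refine ⟨hL.degM a hy.1, ?_⟩
    have h1 := ih _ hy.2
    have h2 : R.frobM (a • y) = a • R.frobM y := hL.FM a y
    have h3 : ∀ z, R.act A.frob (a • z) = a • R.act A.frob z := fun z => hL.app a z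
    rwa [smul_sub, smul_comm, ← h3, ← h2] at h1

/-- The generalized eigenspace. -/
def spaceN (hL : IsLinear R) (Q : ℕ) (i j : ℤ) : Submodule K R.N where
  carrier := {m | ∃ n, m ∈ genN R Q i j n}
  zero_mem' := ⟨0, Submodule.zero_mem _⟩
  add_mem' := by
    rintro a b ⟨n, ha⟩ ⟨n', hb⟩
    exact ⟨max n n', Submodule.add_mem _ (genN_mono i j (le_max_left _ _) ha)
      (genN_mono i j (le_max_right _ _) hb)⟩
  smul_mem' := by
    rintro a b ⟨n, hb⟩
    exact ⟨n, smul_genN hL i j n a b hb⟩

/-- The generalized eigenspace. -/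
def spaceM (hL : IsLinear R) (Q : ℕ) (i j : ℤ) : Submodule K R.M where
  carrier := {m | ∃ n, m ∈ genM R Q i j n}
  zero_mem' := ⟨0, Submodule.zero_mem _⟩
  add_mem' := by
    rintro a b ⟨n, ha⟩ ⟨n', hb⟩
    exact ⟨max n n', Submodule.add_mem _ (genM_mono i j (le_max_left _ _) ha)
      (genM_mono i j (le_max_right _ _) hb)⟩
  smul_mem' := by
    rintro a b ⟨n, hb⟩
    exact ⟨n, smul_genM hL i j n a b hb⟩

theorem multN_eq (i j : ℤ) : multN R Q i j = finrank K (spaceN hL Q i j) := by
  have h1 : Submodule.span K {m | ∃ n, GenVecN R Q i j n m} = spaceN hL Q i j := by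
    have h2 : {m | ∃ n, GenVecN R Q i j n m} = (spaceN hL Q i j : Set R.N) := by
      ext m
      constructor
      · rintro ⟨n, hn⟩
        exact ⟨n, (genVecN_iff n).1 hn⟩
      · rintro ⟨n, hn⟩
        exact ⟨n, (genVecN_iff n).2 hn⟩
    rw [h2, Submodule.span_eq]
  rw [multN, h1]

theorem multM_eq (i j : ℤ) : multM R Q i j = finrank K (spaceM hL Q i j) := by
  have h1 : Submodule.span K {m | ∃ n, GenVecM R Q i j n m} = spaceM hL Q i j := by
    have h2 : {m | ∃ n, GenVecM R Q i j n m} = (spaceM hL Q i j : Set R.M) := by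
      ext m
      constructor
      · rintro ⟨n, hn⟩
        exact ⟨n, (genVecM_iff n).1 hn⟩
      · rintro ⟨n, hn⟩
        exact ⟨n, (genVecM_iff n).2 hn⟩
    rw [h2, Submodule.span_eq]
  rw [multM, h1]

theorem genN_grN {T : RelData A} {i j : ℤ} {n : ℕ} {m : T.N}
    (hm : m ∈ genN T Q i j n) : m ∈ T.grN i j := by
  cases n with
  | zero =>
    rw [mem_genN_zero] at hm
    rw [hm]
    exact Submodule.zero_mem _
  | succ n => exact (mem_genN_succ.1 hm).1

theorem finite_spaceN (i j : ℤ) : FiniteDimensional K (spaceN hL Q i j) := by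
  have h1 := hL.finite i j
  refine Submodule.finiteDimensional_of_le (S₂ := Submodule.span K {n | R.DegN i j n}) ?_
  rintro m ⟨n, hn⟩
  exact Submodule.subset_span (genN_grN hn)

section

variable {J : Type} [Fintype J] {c : J → ℕ} {D E : J → A.CH}

include hL in
/-- The generalized eigenspace of `A × Z` is the sum of those of `Z`. -/
theorem multM_sum (h : IsDual A c D E) (hQ : Q ≠ 0) (hR : IsRel Q R) (i j : ℤ)
    (hexp : ∀ n : ℕ, ∀ m ∈ genM R Q i j n, m = ∑ t, R.times (D t) (R.pair (E t) m)) :
    multM R Q i j = ∑ t, multN R Q (i - 2 * c t) (j - c t) := by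
  have hfin := fun t => finite_spaceN (Q := Q) hL (i - 2 * c t) (j - c t)
  have hbound : ∀ z : ∀ t, spaceN hL Q (i - 2 * c t) (j - c t), ∃ n, ∀ t,
      (z t : R.N) ∈ genN R Q (i - 2 * c t) (j - c t) n := by
    intro z
    choose n hn using fun t => (z t).2
    exact ⟨∑ t, n t, fun t => genN_mono _ _
      (Finset.single_le_sum (fun _ _ => Nat.zero_le _) (Finset.mem_univ t)) (hn t)⟩
  let f : (∀ t, spaceN hL Q (i - 2 * c t) (j - c t)) →ₗ[K] spaceM hL Q i j :=
    { toFun := fun z => ⟨∑ t, R.times (D t) (z t), by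
        obtain ⟨n, hn⟩ := hbound z
        refine ⟨n, Submodule.sum_mem _ fun t _ => ?_⟩
        have h1 := times_gen hQ hR (h.left t) n _ (hn t)
        rwa [sub_add_cancel, sub_add_cancel] at h1⟩
      map_add' := fun z w => by
        apply Subtype.ext
        change ∑ t, R.times (D t) ((z + w) t : R.N) = ∑ t, R.times (D t) (z t) +
          ∑ t, R.times (D t) (w t)
        rw [← Finset.sum_add_distrib]
        exact Finset.sum_congr rfl fun t _ => map_add _ _ _
      map_smul' := fun a z => by
        apply Subtype.ext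
        change ∑ t, R.times (D t) ((a • z) t : R.N) = a • ∑ t, R.times (D t) (z t)
        rw [Finset.smul_sum]
        exact Finset.sum_congr rfl fun t _ => hL.mul (D t) a (z t) }
  have hf : Function.Bijective f := by
    constructor
    · intro z w hzw
      funext t
      apply Subtype.ext
      have h1 : (∑ t, R.times (D t) (z t : R.N)) = ∑ t, R.times (D t) (w t) :=
        congrArg Subtype.val hzw
      have h2 := congrArg (R.pair (E t)) h1
      rwa [pair_sum hR h t (fun t => (z t : R.N)), pair_sum hR h t (fun t => (w t : R.N))] at h2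
    · rintro ⟨m, n, hm⟩
      refine ⟨fun t => ⟨R.pair (E t) m, n, pair_gen hQ hR h n (hexp n) t m hm⟩, ?_⟩
      apply Subtype.ext
      exact (hexp n m hm).symm
  rw [multM_eq hL, ← (LinearEquiv.ofBijective f hf).finrank_eq, Module.finrank_pi_fintype]
  exact Finset.sum_congr rfl fun t _ => (multN_eq hL _ _).symm

/-- The groups of `A × Z` are the sums of those of `Z`: ranks. -/
theorem rank_sum {T : RelData A} (h : IsDual A c D E) (hT : IsRel Q T) (i j : ℤ)
    (hexp : ∀ m ∈ T.grM i j, m = ∑ t, T.times (D t) (T.pair (E t) m)) :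
    ∃ _ : T.grM i j ≃ₗ[ℚ] ∀ t, T.grN (i - 2 * c t) (j - c t), True := by
  let f : (∀ t, T.grN (i - 2 * c t) (j - c t)) →ₗ[ℚ] T.grM i j :=
    { toFun := fun z => ⟨∑ t, T.times (D t) (z t), by
        refine Submodule.sum_mem _ fun t _ => ?_
        have h1 := hT.times_mem (h.left t) (z t).2
        rwa [sub_add_cancel, sub_add_cancel] at h1⟩
      map_add' := fun z w => by
        apply Subtype.ext
        change ∑ t, T.times (D t) ((z + w) t : T.N) = ∑ t, T.times (D t) (z t) +
          ∑ t, T.times (D t) (w t)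
        rw [← Finset.sum_add_distrib]
        exact Finset.sum_congr rfl fun t _ => map_add _ _ _
      map_smul' := fun a z => by
        apply Subtype.ext
        change ∑ t, T.times (D t) ((a • z) t : T.N) = a • ∑ t, T.times (D t) (z t)
        rw [Finset.smul_sum]
        exact Finset.sum_congr rfl fun t _ => map_smul _ a _ }
  have hf : Function.Bijective f := by
    constructor
    · intro z w hzw
      funext t
      apply Subtype.ext
      have h1 : (∑ t, T.times (D t) (z t : T.N)) = ∑ t, T.times (D t) (w t) :=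
        congrArg Subtype.val hzw
      have h2 := congrArg (T.pair (E t)) h1
      rwa [pair_sum hT h t (fun t => (z t : T.N)), pair_sum hT h t (fun t => (w t : T.N))] at h2
    · rintro ⟨m, hm⟩
      refine ⟨fun t => ⟨T.pair (E t) m, hT.pair_mem (by have := h.le t; omega) (h.right t) hm⟩,
        ?_⟩
      apply Subtype.ext
      exact (hexp m hm).symm
  exact ⟨(LinearEquiv.ofBijective f hf).symm, trivial⟩

end

end Pool.Agent.X300.RB
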