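import Mathlib
import Pool.Agent.X300.RB.KLin
import Pool.Agent.X300.RB.Cyc
import Pool.Agent.X300.RB.JanDefs

/-!
# Jannsen's conjectures for varieties over finite fields
-/

set_option autoImplicit false
set_option linter.unusedSectionVars false

namespace Pool.Agent.X300.RB

open Module Polynomial TensorProduct Pool.Agent.W484.TB Pool.Agent.W484.HS Pool.Agent.W521.Frob
  Pool.Agent.W521.Count Pool.Agent.W521.Bad Pool.Agent.W521.Descent Pool.Agent.W521.Density
  Pool.Agent.Y156.L

section

variable {K : Type} [Field K] [CharZero K] {A : AbelianData K} {J : Type} [Fintype J]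
  {c : J → ℕ} {D E : J → A.CH} {Q : ℕ} {T R : RelData A} [Module K R.N] [Module K R.M]
  {ρ : Regulator T R}

theorem compareN_tmul (j : ℤ) (a : K) (n : T.grN (2 * j) j) :
    compareN ρ j (a ⊗ₜ n) = a • ρ.cN n := rfl

theorem compareM_tmul (j : ℤ) (a : K) (m : T.grM (2 * j) j) :
    compareM ρ j (a ⊗ₜ m) = a • ρ.cM m := rfl

/-- The product with `D t`. -/
noncomputable def upMap (h : IsDual A c D E) (hT : IsRel Q T) (j : ℤ) (t : J) :
    T.grN (2 * (j - c t)) (j - c t) →ₗ[ℚ] T.grM (2 * j) j :=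
  timesMap hT (h.left t) _ _ _ _ (by ring) (by ring)

/-- The pairing with `E t`. -/
noncomputable def downMap (h : IsDual A c D E) (hT : IsRel Q T) (j : ℤ) (t : J) :
    T.grM (2 * j) j →ₗ[ℚ] T.grN (2 * (j - c t)) (j - c t) :=
  pairMap hT (l := c t) (d := A.dim - c t) (by have := h.le t; omega) (h.right t) _ _ _ _
    (by ring) rfl

theorem upMap_coe (h : IsDual A c D E) (hT : IsRel Q T) (j : ℤ) (t : J)
    (n : T.grN (2 * (j - c t)) (j - c t)) : (upMap h hT j t n : T.M) = T.times (D t) n := rfl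

theorem downMap_coe (h : IsDual A c D E) (hT : IsRel Q T) (j : ℤ) (t : J)
    (m : T.grM (2 * j) j) : (downMap h hT j t m : T.N) = T.pair (E t) m := rfl

theorem compareN_down (h : IsDual A c D E) (hT : IsRel Q T) (hL : IsLinear R)
    (hρ : IsRegulator ρ) (j : ℤ) (t : J) (ξ : K ⊗[ℚ] (T.grM (2 * j) j)) :
    compareN ρ (j - c t) ((downMap h hT j t).baseChange K ξ) =
      R.pair (E t) (compareM ρ j ξ) := by
  induction ξ using TensorProduct.induction_on with
  | zero => simp only [map_zero]
  | tmul a m =>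
    rw [LinearMap.baseChange_tmul, compareN_tmul, compareM_tmul, downMap_coe, reg_push hρ]
    exact (hL.push (E t) a _).symm
  | add x y hx hy => rw [map_add, map_add, map_add, map_add, hx, hy]

theorem compareM_up (h : IsDual A c D E) (hT : IsRel Q T) (hL : IsLinear R)
    (hρ : IsRegulator ρ) (j : ℤ) (t : J) (η : K ⊗[ℚ] (T.grN (2 * (j - c t)) (j - c t))) :
    compareM ρ j ((upMap h hT j t).baseChange K η) =
      R.times (D t) (compareN ρ (j - c t) η) := by
  induction η using TensorProduct.induction_on with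
  | zero => simp only [map_zero]
  | tmul a m =>
    rw [LinearMap.baseChange_tmul, compareN_tmul, compareM_tmul, upMap_coe, reg_mul hρ]
    exact (hL.mul (D t) a _).symm
  | add x y hx hy => rw [map_add, map_add, map_add, map_add, hx, hy]

theorem down_up (h : IsDual A c D E) (hT : IsRel Q T) (j : ℤ) (t : J)
    (η : K ⊗[ℚ] (T.grN (2 * (j - c t)) (j - c t))) :
    (downMap h hT j t).baseChange K ((upMap h hT j t).baseChange K η) = η := by
  have h1 : (downMap h hT j t) ∘ₗ (upMap h hT j t) = LinearMap.id := by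
    ext n
    classical
    change T.pair (E t) (T.times (D t) n) = n
    rw [dualpair hT h t t, if_pos rfl]
  rw [← LinearMap.comp_apply, ← LinearMap.baseChange_comp, h1, LinearMap.baseChange_id,
    LinearMap.id_apply]

theorem up_down (h : IsDual A c D E) (hT : IsRel Q T) (j : ℤ)
    (hexp : ∀ m ∈ T.grM (2 * j) j, m = ∑ t, T.times (D t) (T.pair (E t) m))
    (ξ : K ⊗[ℚ] (T.grM (2 * j) j)) :
    ∑ t, (upMap h hT j t).baseChange K ((downMap h hT j t).baseChange K ξ) = ξ := by
  induction ξ using TensorProduct.induction_on with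
  | zero => simp only [map_zero, Finset.sum_const_zero]
  | tmul a m =>
    simp only [LinearMap.baseChange_tmul]
    rw [← TensorProduct.tmul_sum]
    congr 1
    apply Subtype.ext
    rw [AddSubmonoidClass.coe_finsetSum]
    exact (hexp m m.2).symm
  | add x y hx hy =>
    simp only [map_add, Finset.sum_add_distrib]
    rw [hx, hy]

/-- The expansion in the theory of cycles modulo homological equivalence. -/
theorem exp_homological (h : IsDual A c D E) (hT : IsRel Q T) (hρ : IsRegulator ρ)
    (hH : IsHomological ρ Q) (j : ℤ)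
    (hexp : ∀ m, R.InvM Q (2 * j) j m → m = ∑ t, R.times (D t) (R.pair (E t) m)) :
    ∀ m ∈ T.grM (2 * j) j, m = ∑ t, T.times (D t) (T.pair (E t) m) := by
  intro m hm
  rw [← sub_eq_zero]
  refine hH.injectiveM j _ ?_ ?_
  · refine Submodule.sub_mem _ hm (Submodule.sum_mem _ fun t _ => ?_)
    exact (upMap h hT j t (downMap h hT j t ⟨m, hm⟩)).2
  · change ρ.cM _ = 0
    rw [map_sub, sub_eq_zero, map_sum]
    have h1 := hexp _ (hH.invariantM j m hm)
    change ρ.cM m = _ at h1
    rw [h1]
    refine Finset.sum_congr rfl fun t _ => ?_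
    rw [reg_mul hρ, reg_push hρ]
    rfl

theorem compareN_mem (hL : IsLinear R) (hH : IsHomological ρ Q) (j : ℤ)
    (η : K ⊗[ℚ] (T.grN (2 * j) j)) : compareN ρ j η ∈ genN R Q (2 * j) j 1 := by
  induction η using TensorProduct.induction_on with
  | zero =>
    rw [map_zero]
    exact Submodule.zero_mem _
  | tmul a n =>
    rw [compareN_tmul]
    exact smul_genN hL _ _ 1 a _ (mem_genN_one.2 (hH.invariantN j n n.2))
  | add x y hx hy =>
    rw [map_add]
    exact Submodule.add_mem _ hx hy

/-- The rank is at most the multiplicity. -/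
theorem finite_of_injective (hL : IsLinear R) (hH : IsHomological ρ Q) (j : ℤ)
    (hinj : Function.Injective (compareN ρ j)) : FiniteDimensional ℚ (T.grN (2 * j) j) ∧
      finrank ℚ (T.grN (2 * j) j) ≤ multN R Q (2 * j) j := by
  have hfin := finite_spaceN (Q := Q) hL (2 * j) j
  let f : K ⊗[ℚ] (T.grN (2 * j) j) →ₗ[K] spaceN hL Q (2 * j) j :=
    (compareN ρ j).codRestrict _ fun η => ⟨1, compareN_mem hL hH j η⟩
  have hf : Function.Injective f := fun x y hxy => hinj (congrArg Subtype.val hxy)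
  have h1 : FiniteDimensional K (K ⊗[ℚ] (T.grN (2 * j) j)) := Module.Finite.of_injective f hf
  have h2 : FiniteDimensional ℚ (T.grN (2 * j) j) := by
    have h3 : Module.rank K (K ⊗[ℚ] (T.grN (2 * j) j)) < Cardinal.aleph0 :=
      Module.rank_lt_aleph0_iff.2 h1
    rw [Module.rank_baseChange] at h3
    have h4 : Module.rank ℚ (T.grN (2 * j) j) < Cardinal.aleph0 := by
      rw [← Cardinal.lift_lt_aleph0]
      exact h3
    exact Module.rank_lt_aleph0_iff.1 h4
  refine ⟨h2, ?_⟩
  rw [multN_eq hL, ← Module.finrank_baseChange (R := K) (S := ℚ)]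
  exact LinearMap.finrank_le_finrank_of_injective hf

theorem injective_iff_jan (hF : IsFamily A c D) (h : IsDual A c D E) (hT : IsRel Q T)
    (hR : IsRel Q R) (hL : IsLinear R) (hρ : IsRegulator ρ) (j : ℤ)
    (hexp : ∀ m ∈ T.grM (2 * j) j, m = ∑ t, T.times (D t) (T.pair (E t) m)) :
    Function.Injective (compareM ρ j) ↔
      ∀ k : ℕ, k ≤ A.dim → Function.Injective (compareN ρ (j - k)) := by
  constructor
  · intro h0 k hk
    obtain ⟨t, rfl⟩ := hF.exists_eq k hk
    rw [injective_iff_map_eq_zero] at h0 ⊢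
    intro η hη
    have h1 := compareM_up h hT hL hρ j t η
    rw [hη, map_zero] at h1
    rw [← down_up h hT j t η, h0 _ h1, map_zero]
  · intro h0
    rw [injective_iff_map_eq_zero]
    intro ξ hξ
    rw [← up_down h hT j hexp ξ]
    refine Finset.sum_eq_zero fun t _ => ?_
    have h1 := compareN_down h hT hL hρ j t ξ
    rw [hξ, map_zero] at h1
    rw [(injective_iff_map_eq_zero _).1 (h0 (c t) (h.le t)) _ h1, map_zero]

theorem onto_iff_jan (hF : IsFamily A c D) (h : IsDual A c D E) (hQ : Q ≠ 0) (hT : IsRel Q T)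
    (hR : IsRel Q R) (hL : IsLinear R) (hρ : IsRegulator ρ) (j : ℤ)
    (hexp : ∀ m, R.InvM Q (2 * j) j m → m = ∑ t, R.times (D t) (R.pair (E t) m)) :
    (∀ w, R.InvM Q (2 * j) j w → w ∈ LinearMap.range (compareM ρ j)) ↔
      ∀ k : ℕ, k ≤ A.dim → ∀ w, R.InvN Q (2 * (j - k)) (j - k) w →
        w ∈ LinearMap.range (compareN ρ (j - k)) := by
  constructor
  · intro h0 k hk w hw
    obtain ⟨t, rfl⟩ := hF.exists_eq k hk
    have h1 := inv_times hQ hR (h.left t) hw
    rw [show 2 * (j - (c t : ℤ)) + 2 * c t = 2 * j by ring, sub_add_cancel] at h1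
    obtain ⟨ξ, hξ⟩ := h0 _ h1
    refine ⟨(downMap h hT j t).baseChange K ξ, ?_⟩
    classical
    rw [compareN_down h hT hL hρ, hξ, dualpair hR h t t w, if_pos rfl]
  · intro h0 w hw
    have h1 : ∀ t, ∃ η : K ⊗[ℚ] (T.grN (2 * (j - c t)) (j - c t)),
        compareN ρ (j - c t) η = R.pair (E t) w := by
      intro t
      have h2 := inv_pair hQ hR h hw (hexp w hw) t
      rw [← mul_sub] at h2
      exact h0 (c t) (h.le t) _ h2
    choose η hη using h1
    refine ⟨∑ t, (upMap h hT j t).baseChange K (η t), ?_⟩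
    rw [map_sum]
    conv_rhs => rw [hexp w hw]
    refine Finset.sum_congr rfl fun t _ => ?_
    rw [compareM_up h hT hL hρ, hη]

theorem jannsen_iff (hF : IsFamily A c D) (h : IsDual A c D E) (hQ : Q ≠ 0) (hT : IsRel Q T)
    (hR : IsRel Q R) (hL : IsLinear R) (hρ : IsRegulator ρ) (hH : IsHomological ρ Q) (j : ℤ)
    (hexpR : ∀ n : ℕ, ∀ m ∈ genM R Q (2 * j) j n,
      m = ∑ t, R.times (D t) (R.pair (E t) m)) :
    JannsenM ρ Q j ↔ ∀ k : ℕ, k ≤ A.dim → JannsenN ρ Q (j - k) := by
  have hexp1 : ∀ m, R.InvM Q (2 * j) j m → m = ∑ t, R.times (D t) (R.pair (E t) m) :=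
    fun m hm => hexpR 1 m (mem_genM_one.2 hm)
  have hexpT := exp_homological h hT hρ hH j hexp1
  have hinj := injective_iff_jan hF h hT hR hL hρ j hexpT
  have honto := onto_iff_jan hF h hQ hT hR hL hρ j hexp1
  have hcast : ∀ t, (2 * j - 2 * (c t : ℤ)) = 2 * (j - c t) := fun t => by ring
  have hmult : multM R Q (2 * j) j = ∑ t, multN R Q (2 * (j - c t)) (j - c t) := by
    rw [multM_sum hL h hQ hR (2 * j) j hexpR]
    exact Finset.sum_congr rfl fun t _ => by rw [hcast]
  have hrank : (∀ t, FiniteDimensional ℚ (T.grN (2 * (j - c t)) (j - c t))) →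
      finrank ℚ (T.grM (2 * j) j) = ∑ t, finrank ℚ (T.grN (2 * (j - c t)) (j - c t)) := by
    intro hfin
    obtain ⟨e, -⟩ := rank_sum h hT (2 * j) j hexpT
    have hfin' : ∀ t, FiniteDimensional ℚ (T.grN (2 * j - 2 * (c t : ℤ)) (j - c t)) := by
      intro t
      rw [hcast]
      exact hfin t
    rw [e.finrank_eq, Module.finrank_pi_fintype]
    exact Finset.sum_congr rfl fun t _ => by rw [hcast]
  constructor
  · intro hM
    have h1 := hinj.1 hM.injective
    have h2 := honto.1 hM.onto
    have h3 := fun t => finite_of_injective hL hH (j - c t) (h1 (c t) (h.le t))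
    have h4 : ∀ t, finrank ℚ (T.grN (2 * (j - c t)) (j - c t)) =
        multN R Q (2 * (j - c t)) (j - c t) := by
      have h5 : ∑ t, finrank ℚ (T.grN (2 * (j - c t)) (j - c t)) =
          ∑ t, multN R Q (2 * (j - c t)) (j - c t) := by
        rw [← hrank fun t => (h3 t).1, ← hmult, hM.order]
      intro t
      exact (Finset.sum_eq_sum_iff_of_le fun t _ => (h3 t).2).1 h5 t (Finset.mem_univ t)
    intro k hk
    refine ⟨h1 k hk, h2 k hk, ?_⟩
    obtain ⟨t, rfl⟩ := hF.exists_eq k hk
    exact h4 t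
  · intro hN
    refine ⟨hinj.2 fun k hk => (hN k hk).injective, honto.2 fun k hk => (hN k hk).onto, ?_⟩
    have h3 := fun t => finite_of_injective hL hH (j - c t) (hN (c t) (h.le t)).injective
    rw [hrank fun t => (h3 t).1, hmult]
    exact Finset.sum_congr rfl fun t _ => (hN (c t) (h.le t)).order

end

section

variable {I : Type} [Finite I] (g : I → ℕ) (E : IntermediateField ℚ ℂ) [FiniteDimensional ℚ E]
  {q : ℕ} (hq : 1 < q) (r : ℕ) (hr : ∀ i, r < g i)
  (x : (Σ i, Fin (g i)) → ℤ) (hx : GoodU (splitPrimes E) g q x)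

include hq hr hx

theorem jan_of_good : JannsenForRankOver E q r (fun i => weil q (polys g x i)) := by
  intro K _ _ A s hA
  obtain ⟨J, hJ, c, D, E', hF, hdual, hQ, hmain⟩ := exists_classes_filt g E hq r hr x hx hA
  refine ⟨J, hJ, c, D, hF, fun T R _ _ ρ hT hR hrR hL hρ hH => ?_⟩
  have hexpR : ∀ (j : ℤ) (n : ℕ), ∀ m ∈ genM R (q ^ s) (2 * j) j n,
      m = ∑ t, R.times (D t) (R.pair (E' t) m) := fun j n m hm =>
    (hmain R hR j (R.grM (2 * j) j) (fun m hm => hR.frob_mem hm) (hrR j) n m hm).1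
  have hiff := fun j => jannsen_iff hF hdual hQ hT hR hL hρ hH j (hexpR j)
  refine ⟨hiff, ?_, ?_⟩
  · intro h j
    have h1 := (hiff j).1 (h j) 0 (Nat.zero_le _)
    rwa [Nat.cast_zero, sub_zero] at h1
  · intro h j
    exact (hiff j).2 fun k _ => h _

end

section count

variable {I : Type} [Fintype I] (g : I → ℕ) (r : ℕ) (hr : ∀ i, r < g i)
  (E : IntermediateField ℚ ℂ) [FiniteDimensional ℚ E]

include hr

theorem count_jan : AlmostAll g fun q f => JannsenForRankOver E q r f :=
  count_of_goodU (splitPrimes E) (dense_splitPrimes E) g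
    (fun i => (Nat.zero_le r).trans_lt (hr i)) (fun q f => JannsenForRankOver E q r f)
    fun _ hq x hx => jan_of_good g E hq.one_lt r hr x hx

end count

end Pool.Agent.X300.RB
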