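import Mathlib
import Pool.Agent.X300.RB.KDefs

/-!
# Orders of zeta functions and ranks of higher Chow groups: definitions
-/

set_option autoImplicit false

namespace Pool.Agent.X300.RB

open Polynomial Pool.Agent.Y156.L

variable {K : Type} [Field K] {A : AbelianData K}

/-- The Frobenius endomorphism of `Z` satisfies, on all of `H^i(A × Z, j)`, for all `i` and `j`, a
nonzero rational polynomial whose roots in `ℂ` lie, up to powers, in a group generated by the
nonzero elements of the number field `E` and `r` numbers. -/
def HasRankAll (T : RelData A) (E : IntermediateField ℚ ℂ) (r : ℕ) : Prop :=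
  ∀ i j : ℤ, ∃ χ : ℚ[X], χ ≠ 0 ∧ GroupOfRank E r {ρ : ℂ | aeval ρ χ = 0} ∧
    ∀ m, T.DegM i j m → aeval T.frobM χ m = 0

/-- The conjecture of Bloch and Soulé for `Z` in the weight `j`: the groups `H^i(Z, j)` of the theory
`T` have finite dimension, almost all of them are zero, and the alternating sum of their dimensions
is the alternating sum of the multiplicities of the eigenvalue `Q ^ j` of Frobenius on the groups
`H^i(Z, j)` of the theory `R`. -/
structure BlochSouleN (T R : RelData A) [Module K R.N] (Q : ℕ) (j : ℤ) : Prop where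
  finite : ∀ i : ℤ, FiniteDimensional ℚ (T.grN i j)
  bounded : {i : ℤ | T.grN i j ≠ ⊥}.Finite
  order : ∑ᶠ i : ℤ, (i.negOnePow : ℤ) * (Module.finrank ℚ (T.grN i j) : ℤ) =
    ∑ᶠ i : ℤ, (i.negOnePow : ℤ) * (multN R Q i j : ℤ)

/-- The conjecture of Bloch and Soulé for `A × Z` in the weight `j`: the groups `H^i(A × Z, j)` of the
theory `T` have finite dimension, almost all of them are zero, and the alternating sum of their
dimensions is the alternating sum of the multiplicities of the eigenvalue `Q ^ j` of Frobenius on the
groups `H^i(A × Z, j)` of the theory `R`. -/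
structure BlochSouleM (T R : RelData A) [Module K R.M] (Q : ℕ) (j : ℤ) : Prop where
  finite : ∀ i : ℤ, FiniteDimensional ℚ (T.grM i j)
  bounded : {i : ℤ | T.grM i j ≠ ⊥}.Finite
  order : ∑ᶠ i : ℤ, (i.negOnePow : ℤ) * (Module.finrank ℚ (T.grM i j) : ℤ) =
    ∑ᶠ i : ℤ, (i.negOnePow : ℤ) * (multM R Q i j : ℤ)

/-- In each weight almost all groups of `Z` of the theory `R` are zero, and in the weights `j < j₀`
the groups of `Z` of the theory `T` are zero and `Q ^ j` is not an eigenvalue of Frobenius on the
groups of the theory `R`. -/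
structure IsBounded (T R : RelData A) (Q : ℕ) (j₀ : ℤ) : Prop where
  almost : ∀ j : ℤ, {i : ℤ | R.grN i j ≠ ⊥}.Finite
  below : ∀ i j : ℤ, j < j₀ → T.grN i j = ⊥ ∧ ∀ n, R.InvN Q i j n → n = 0

/-- `ZetaForRankOver E q r f`: for every abelian variety `A` as in `IsAbelian` there are finitely
many products `D t` of divisor classes on `A`, such that for all `T` (motivic homology) and `R`
(`ℓ`-adic homology, coefficients in `K`) relative to any scheme `Z`, with the formal properties and
of rank at most `r` over `E`, `T` pure: the Kunneth formula holds for `T`, the conjecture of Bloch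
and Soulé holds for `A × Z` and the weight `j` if it holds for `Z` and the weights `j - k`,
`0 ≤ k ≤ dim A`, and it holds for `A × Z` and all weights if and only if it holds for `Z` and all
weights. -/
def ZetaForRankOver (E : IntermediateField ℚ ℂ) (q r : ℕ) {I : Type} (f : I → ℤ[X]) : Prop :=
  ∀ (K : Type) [Field K] [CharZero K] (A : AbelianData K) (s : ℕ), IsAbelian A q s f →
    ∃ (J : Type) (_ : Fintype J) (c : J → ℕ) (D : J → A.CH), IsFamily A c D ∧
      ∀ (T R : RelData A) [Module K R.N] [Module K R.M] (j₀ : ℤ), IsRel (q ^ s) T →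
        IsRel (q ^ s) R → T.IsPure (q ^ s) → HasRankAll T E r → HasRankAll R E r → IsLinear R →
        IsBounded T R (q ^ s) j₀ →
        T.Kunneth (q ^ s) c D ∧
        (∀ j : ℤ, (∀ k : ℕ, k ≤ A.dim → BlochSouleN T R (q ^ s) (j - k)) →
          BlochSouleM T R (q ^ s) j) ∧
        ((∀ j : ℤ, BlochSouleM T R (q ^ s) j) ↔ ∀ j : ℤ, BlochSouleN T R (q ^ s) j)

end Pool.Agent.X300.RB
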