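import Mathlib
import Pool.Agent.X300.RB.KLin
import Pool.Agent.X300.RB.ZetaDefs

/-!
# Orders of zeta functions and ranks of higher Chow groups
-/

set_option autoImplicit false
set_option linter.unusedSectionVars false

namespace Pool.Agent.X300.RB

open Module Polynomial Pool.Agent.W484.TB Pool.Agent.W484.HS Pool.Agent.W521.Frob
  Pool.Agent.W521.Count Pool.Agent.W521.Bad Pool.Agent.W521.Descent Pool.Agent.W521.Density
  Pool.Agent.Y156.L

/-- Alternating sums of shifted functions. -/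
theorem alt_shift {J : Type} [Fintype J] (c : J → ℕ) (f : J → ℤ → ℤ)
    (hf : ∀ t, (Function.support (f t)).Finite) :
    ∑ᶠ i : ℤ, (i.negOnePow : ℤ) * ∑ t, f t (i - 2 * c t) =
      ∑ t, ∑ᶠ i : ℤ, (i.negOnePow : ℤ) * f t i := by
  have h1 : ∀ t, (Function.support fun i : ℤ =>
      (i.negOnePow : ℤ) * f t (i - 2 * c t)).Finite := by
    intro t
    refine ((hf t).preimage (f := fun i : ℤ => i - 2 * c t) ?_).subset ?_
    · intro a _ b _ hab
      have h2 : a - 2 * (c t : ℤ) = b - 2 * c t := hab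
      omega
    · intro i hi
      rw [Function.mem_support] at hi
      intro h2
      apply hi
      rw [h2, mul_zero]
  have h2 : (fun i : ℤ => (i.negOnePow : ℤ) * ∑ t, f t (i - 2 * c t)) =
      fun i : ℤ => ∑ t, (i.negOnePow : ℤ) * f t (i - 2 * c t) := by
    funext i
    rw [Finset.mul_sum]
  rw [h2, finsum_sum_comm _ _ fun t _ => h1 t]
  refine Finset.sum_congr rfl fun t _ => ?_
  rw [← finsum_comp_equiv (Equiv.addRight (2 * (c t : ℤ)))]
  refine finsum_congr fun i => ?_
  rw [Equiv.coe_addRight, add_sub_cancel_right, Int.negOnePow_add]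
  have h3 : Int.negOnePow (2 * (c t : ℤ)) = 1 := Int.negOnePow_two_mul _
  rw [h3, mul_one]

section

variable {K : Type} [Field K] [CharZero K] {A : AbelianData K} {J : Type} [Fintype J]
  {c : J → ℕ} {D E : J → A.CH} {Q : ℕ} {T R : RelData A} [Module K R.N] [Module K R.M]

theorem multN_eq_zero (hL : IsLinear R) {i j : ℤ} (h : ∀ n, R.InvN Q i j n → n = 0) :
    multN R Q i j = 0 := by
  have h1 : ∀ n : ℕ, ∀ m ∈ genN R Q i j n, m = 0 := by
    intro n
    induction n with
    | zero => exact fun m hm => mem_genN_zero.1 hm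
    | succ n ih =>
      intro m hm
      have h2 := ih _ (mem_genN_succ.1 hm).2
      exact h m ⟨(mem_genN_succ.1 hm).1, sub_eq_zero.1 h2⟩
  rw [multN_eq hL]
  have h2 : spaceN hL Q i j = ⊥ := by
    rw [eq_bot_iff]
    rintro m ⟨n, hn⟩
    exact h1 n m hn
  rw [h2, finrank_bot]

theorem support_multN (hL : IsLinear R) {j : ℤ} (h : {i : ℤ | R.grN i j ≠ ⊥}.Finite) :
    (Function.support fun i : ℤ => (multN R Q i j : ℤ)).Finite := by
  refine h.subset fun i hi => ?_
  rw [Function.mem_support] at hi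
  intro h1
  apply hi
  have h2 : multN R Q i j = 0 := by
    refine multN_eq_zero hL fun n hn => ?_
    have h3 := hn.1
    change n ∈ R.grN i j at h3
    rwa [h1, Submodule.mem_bot] at h3
  rw [h2, Nat.cast_zero]

theorem support_finrank {j : ℤ} (h : {i : ℤ | T.grN i j ≠ ⊥}.Finite) :
    (Function.support fun i : ℤ => (finrank ℚ (T.grN i j) : ℤ)).Finite := by
  refine h.subset fun i hi => ?_
  rw [Function.mem_support] at hi
  intro h1
  apply hi
  rw [h1, finrank_bot, Nat.cast_zero]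

/-- The difference of the two sides of the formula of Bloch and Soulé. -/
noncomputable def defectN (T R : RelData A) [Module K R.N] (Q : ℕ) (j : ℤ) : ℤ :=
  ∑ᶠ i : ℤ, (i.negOnePow : ℤ) * (finrank ℚ (T.grN i j) : ℤ) -
    ∑ᶠ i : ℤ, (i.negOnePow : ℤ) * (multN R Q i j : ℤ)

/-- The difference of the two sides of the formula of Bloch and Soulé. -/
noncomputable def defectM (T R : RelData A) [Module K R.M] (Q : ℕ) (j : ℤ) : ℤ :=
  ∑ᶠ i : ℤ, (i.negOnePow : ℤ) * (finrank ℚ (T.grM i j) : ℤ) -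
    ∑ᶠ i : ℤ, (i.negOnePow : ℤ) * (multM R Q i j : ℤ)

theorem defect_sum (h : IsDual A c D E) (hQ : Q ≠ 0) (hT : IsRel Q T) (hR : IsRel Q R)
    (hL : IsLinear R) (hbR : ∀ j : ℤ, {i : ℤ | R.grN i j ≠ ⊥}.Finite)
    (hexpT : ∀ i j : ℤ, ∀ m ∈ T.grM i j, m = ∑ t, T.times (D t) (T.pair (E t) m))
    (hexpR : ∀ (i j : ℤ) (n : ℕ), ∀ m ∈ genM R Q i j n,
      m = ∑ t, R.times (D t) (R.pair (E t) m)) (j : ℤ)
    (hfin : ∀ t, ∀ i : ℤ, FiniteDimensional ℚ (T.grN i (j - c t)))
    (hb : ∀ t, {i : ℤ | T.grN i (j - c t) ≠ ⊥}.Finite) :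
    defectM T R Q j = ∑ t, defectN T R Q (j - c t) := by
  have h1 : ∀ i : ℤ, (finrank ℚ (T.grM i j) : ℤ) =
      ∑ t, (finrank ℚ (T.grN (i - 2 * c t) (j - c t)) : ℤ) := by
    intro i
    obtain ⟨e, -⟩ := rank_sum h hT i j (hexpT i j)
    have := fun t => hfin t (i - 2 * c t)
    rw [e.finrank_eq, Module.finrank_pi_fintype, Nat.cast_sum]
  have h2 : ∀ i : ℤ, (multM R Q i j : ℤ) = ∑ t, (multN R Q (i - 2 * c t) (j - c t) : ℤ) := by
    intro i
    rw [multM_sum hL h hQ hR i j (hexpR i j), Nat.cast_sum]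
  rw [defectM]
  simp only [h1, h2]
  rw [alt_shift c (fun t i => (finrank ℚ (T.grN i (j - c t)) : ℤ))
    (fun t => support_finrank (hb t)), alt_shift c (fun t i => (multN R Q i (j - c t) : ℤ))
    (fun t => support_multN hL (hbR _)), ← Finset.sum_sub_distrib]
  rfl

theorem finite_M (h : IsDual A c D E) (hT : IsRel Q T) (i j : ℤ)
    (hexpT : ∀ m ∈ T.grM i j, m = ∑ t, T.times (D t) (T.pair (E t) m)) :
    FiniteDimensional ℚ (T.grM i j) ↔
      ∀ t, FiniteDimensional ℚ (T.grN (i - 2 * c t) (j - c t)) := by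
  obtain ⟨e, -⟩ := rank_sum h hT i j hexpT
  constructor
  · intro h1 t
    have h2 : FiniteDimensional ℚ (∀ t, T.grN (i - 2 * c t) (j - c t)) :=
      Module.Finite.equiv e
    exact Module.Finite.of_surjective (LinearMap.proj (R := ℚ)
      (φ := fun t => T.grN (i - 2 * c t) (j - c t)) t) (LinearMap.proj_surjective t)
  · intro h1
    exact Module.Finite.equiv e.symm

theorem bot_M (h : IsDual A c D E) (hT : IsRel Q T) (i j : ℤ)
    (hexpT : ∀ m ∈ T.grM i j, m = ∑ t, T.times (D t) (T.pair (E t) m)) :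
    T.grM i j = ⊥ ↔ ∀ t, T.grN (i - 2 * c t) (j - c t) = ⊥ := by
  constructor
  · intro h0 t
    rw [eq_bot_iff]
    intro n hn
    have h1 := hT.times_mem (h.left t) hn
    rw [sub_add_cancel, sub_add_cancel, h0, Submodule.mem_bot] at h1
    classical
    have h3 := dualpair hT h t t n
    rw [h1, map_zero, if_pos rfl] at h3
    rw [Submodule.mem_bot]
    exact h3.symm
  · intro h0
    rw [eq_bot_iff]
    intro m hm
    rw [Submodule.mem_bot, hexpT m hm]
    refine Finset.sum_eq_zero fun t _ => ?_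
    have h1 := hT.pair_mem (c := c t) (by have := h.le t; omega) (h.right t) hm
    rw [h0 t, Submodule.mem_bot] at h1
    rw [h1, map_zero]

theorem blochSoule_up (hF : IsFamily A c D) (h : IsDual A c D E) (hQ : Q ≠ 0) (hT : IsRel Q T)
    (hR : IsRel Q R) (hL : IsLinear R) (hbR : ∀ j : ℤ, {i : ℤ | R.grN i j ≠ ⊥}.Finite)
    (hexpT : ∀ i j : ℤ, ∀ m ∈ T.grM i j, m = ∑ t, T.times (D t) (T.pair (E t) m))
    (hexpR : ∀ (i j : ℤ) (n : ℕ), ∀ m ∈ genM R Q i j n,
      m = ∑ t, R.times (D t) (R.pair (E t) m)) (j : ℤ)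
    (hZ : ∀ k : ℕ, k ≤ A.dim → BlochSouleN T R Q (j - k)) : BlochSouleM T R Q j := by
  have hb := fun t => (hZ (c t) (h.le t)).bounded
  have hfin := fun t => (hZ (c t) (h.le t)).finite
  refine ⟨fun i => (finite_M h hT i j (hexpT i j)).2 fun t => hfin t _, ?_, ?_⟩
  · have h1 : {i : ℤ | T.grM i j ≠ ⊥} ⊆
        ⋃ t, (fun i : ℤ => i - 2 * c t) ⁻¹' {i : ℤ | T.grN i (j - c t) ≠ ⊥} := by
      intro i hi
      by_contra h2
      rw [Set.mem_iUnion] at h2
      push Not at h2
      apply hi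
      rw [bot_M h hT i j (hexpT i j)]
      intro t
      by_contra h3
      exact h2 t h3
    refine (Set.finite_iUnion fun t => (hb t).preimage ?_).subset h1
    intro a _ b _ hab
    have h2 : a - 2 * (c t : ℤ) = b - 2 * c t := hab
    omega
  · have h1 := defect_sum h hQ hT hR hL hbR hexpT hexpR j hfin hb
    have h2 : ∀ t, defectN T R Q (j - c t) = 0 := fun t =>
      sub_eq_zero.2 (hZ (c t) (h.le t)).order
    rw [Finset.sum_eq_zero fun t _ => h2 t] at h1
    exact sub_eq_zero.1 h1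

theorem blochSoule_down (hF : IsFamily A c D) (h : IsDual A c D E) (hQ : Q ≠ 0) (hT : IsRel Q T)
    (hR : IsRel Q R) (hL : IsLinear R) {j₀ : ℤ} (hB : IsBounded T R Q j₀)
    (hexpT : ∀ i j : ℤ, ∀ m ∈ T.grM i j, m = ∑ t, T.times (D t) (T.pair (E t) m))
    (hexpR : ∀ (i j : ℤ) (n : ℕ), ∀ m ∈ genM R Q i j n,
      m = ∑ t, R.times (D t) (R.pair (E t) m))
    (hM : ∀ j : ℤ, BlochSouleM T R Q j) : ∀ j : ℤ, BlochSouleN T R Q j := by
  obtain ⟨t₀, ht₀⟩ := hF.exists_eq 0 (Nat.zero_le _)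
  have hfin : ∀ i j : ℤ, FiniteDimensional ℚ (T.grN i j) := by
    intro i j
    have h1 := (finite_M h hT i j (hexpT i j)).1 ((hM j).finite i) t₀
    rwa [ht₀, Nat.cast_zero, mul_zero, sub_zero, sub_zero] at h1
  have hb : ∀ j : ℤ, {i : ℤ | T.grN i j ≠ ⊥}.Finite := by
    intro j
    refine (hM j).bounded.subset fun i hi h1 => hi ?_
    have h2 := (bot_M h hT i j (hexpT i j)).1 h1 t₀
    rwa [ht₀, Nat.cast_zero, mul_zero, sub_zero, sub_zero] at h2
  have hzero : ∀ j : ℤ, ∑ t, defectN T R Q (j - c t) = 0 := by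
    intro j
    rw [← defect_sum h hQ hT hR hL hB.almost hexpT hexpR j (fun t i => hfin i _) fun t => hb _]
    exact sub_eq_zero.2 (hM j).order
  have hbelow : ∀ j : ℤ, j < j₀ → defectN T R Q j = 0 := by
    intro j hj
    have h1 : ∀ i : ℤ, (finrank ℚ (T.grN i j) : ℤ) = 0 := by
      intro i
      rw [(hB.below i j hj).1, finrank_bot, Nat.cast_zero]
    have h2 : ∀ i : ℤ, (multN R Q i j : ℤ) = 0 := by
      intro i
      rw [multN_eq_zero hL (hB.below i j hj).2, Nat.cast_zero]
    rw [defectN]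
    simp only [h1, h2, mul_zero, finsum_zero, sub_zero]
  have hall : ∀ (n : ℕ) (j : ℤ), j < j₀ + n → defectN T R Q j = 0 := by
    intro n
    induction n with
    | zero =>
      intro j hj
      exact hbelow j (by simpa using hj)
    | succ n ih =>
      intro j hj
      have h1 := hzero j
      classical
      have h2 : ∀ t, defectN T R Q (j - c t) = if c t = 0 then defectN T R Q j else 0 := by
        intro t
        by_cases hc : c t = 0
        · rw [if_pos hc, hc, Nat.cast_zero, sub_zero]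
        · rw [if_neg hc]
          refine ih _ ?_
          push_cast at hj
          have : 0 < c t := Nat.pos_of_ne_zero hc
          omega
      rw [Finset.sum_congr rfl fun t _ => h2 t, ← Finset.sum_filter, Finset.sum_const,
        nsmul_eq_mul] at h1
      refine (mul_eq_zero.1 h1).resolve_left ?_
      have h3 : 0 < (Finset.univ.filter fun t => c t = 0).card :=
        Finset.card_pos.2 ⟨t₀, Finset.mem_filter.2 ⟨Finset.mem_univ _, ht₀⟩⟩
      exact_mod_cast h3.ne'
  intro j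
  refine ⟨fun i => hfin i j, hb j, ?_⟩
  have h1 : defectN T R Q j = 0 := by
    refine hall (j + 1 - j₀).toNat j ?_
    have := Int.self_le_toNat (j + 1 - j₀)
    omega
  exact sub_eq_zero.1 h1

end

section

variable {I : Type} [Finite I] (g : I → ℕ) (E : IntermediateField ℚ ℂ) [FiniteDimensional ℚ E]
  {q : ℕ} (hq : 1 < q) (r : ℕ) (hr : ∀ i, r < g i)
  (x : (Σ i, Fin (g i)) → ℤ) (hx : GoodU (splitPrimes E) g q x)

include hq hr hx

theorem zeta_of_good : ZetaForRankOver E q r (fun i => weil q (polys g x i)) := by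
  intro K _ _ A s hA
  obtain ⟨J, hJ, c, D, E', hF, hdual, hQ, hmain⟩ := exists_classes_gen g E hq r hr x hx hA
  refine ⟨J, hJ, c, D, hF, fun T R _ _ j₀ hT hR hpure hrT hrR hL hB => ?_⟩
  have hexpT' := fun i j n m hm => (hmain T hT hrT i j n m hm).1
  have hexpT : ∀ i j : ℤ, ∀ m ∈ T.grM i j, m = ∑ t, T.times (D t) (T.pair (E' t) m) :=
    fun i j m hm => hexpT' i j 1 m (mem_genM_one.2 (hpure i j m hm))
  have hexpR := fun i j n m hm => (hmain R hR hrR i j n m hm).1
  refine ⟨kunneth_of hQ hT hdual fun i j m hm => hexpT' i j 1 m (mem_genM_one.2 hm),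
    fun j hZ => blochSoule_up hF hdual hQ hT hR hL hB.almost hexpT hexpR j hZ,
    fun hM => blochSoule_down hF hdual hQ hT hR hL hB hexpT hexpR hM, fun hN j =>
    blochSoule_up hF hdual hQ hT hR hL hB.almost hexpT hexpR j fun k _ => hN _⟩

end

section count

variable {I : Type} [Fintype I] (g : I → ℕ) (r : ℕ) (hr : ∀ i, r < g i)
  (E : IntermediateField ℚ ℂ) [FiniteDimensional ℚ E]

include hr

theorem count_zeta : AlmostAll g fun q f => ZetaForRankOver E q r f :=
  count_of_goodU (splitPrimes E) (dense_splitPrimes E) g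
    (fun i => (Nat.zero_le r).trans_lt (hr i)) (fun q f => ZetaForRankOver E q r f)
    fun _ hq x hx => zeta_of_good g E hq.one_lt r hr x hx

end count

end Pool.Agent.X300.RB
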