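import Mathlib
import Pool.Agent.Y156.L.Props

/-!
# Unramified cohomology of products with almost all abelian varieties: definitions
-/

set_option autoImplicit false

namespace Pool.Agent.X300.RB

open Polynomial Pool.Agent.Y156.L

variable {K : Type} [Field K] {A : AbelianData K}

/-- The Tate-Beilinson statement for `Z` in the bidegree `(i, j)`: the regulator is injective and
onto the Frobenius invariants, and the eigenvalue `Q ^ j` of Frobenius has no Jordan block of size
two. -/
structure TBiN {T R : RelData A} (ρ : Regulator T R) (Q : ℕ) (i j : ℤ) : Prop where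
  injective : InjectiveN ρ i j
  onto : OntoN ρ Q i j
  semisimple : ∀ n n' : R.N, R.DegN i j n → R.InvN Q i j n' →
    R.FN n - R.scaleN ((Q : ℚ) ^ j) n = n' → n' = 0

/-- The Tate-Beilinson statement for `A × Z` in the bidegree `(i, j)`: the regulator is injective and
onto the Frobenius invariants, and the eigenvalue `Q ^ j` of Frobenius has no Jordan block of size
two. -/
structure TBiM {T R : RelData A} (ρ : Regulator T R) (Q : ℕ) (i j : ℤ) : Prop where
  injective : InjectiveM ρ i j
  onto : OntoM ρ Q i j
  semisimple : ∀ m m' : R.M, R.DegM i j m → R.InvM Q i j m' →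
    R.app A.frob (R.FM m) - R.scaleM ((Q : ℚ) ^ j) m = m' → m' = 0

/-- The group `H = H^3_nr(A × Z, ℚ_ℓ/ℤ_ℓ(2))` is the unramified cohomology group of the smooth
projective variety `A × Z`: it is finite if the Tate-Beilinson statement holds for `A × Z` in the
weight two (Geisser, Kahn, Colliot-Thélène and Kahn: then `H^4_et(A × Z, ℤ(2)) ⊗ ℤ_ℓ` is finitely
generated, and `H` is a torsion quotient of it). -/
def IsUnramifiedPart {T R : RelData A} (ρ : Regulator T R) (Q : ℕ) (H : Type) : Prop :=
  (∀ i : ℤ, TBiM ρ Q i 2) → Finite H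

/-- The Frobenius endomorphism of `Z` satisfies, on all of `H^i(A × Z, j)`, for all `i` and `j`, a
nonzero rational polynomial whose roots in `ℂ` lie, up to powers, in a group generated by the
nonzero elements of the number field `E` and `r` numbers. -/
def HasRankOn (T : RelData A) (E : IntermediateField ℚ ℂ) (r : ℕ) : Prop :=
  ∀ i j : ℤ, ∃ χ : ℚ[X], χ ≠ 0 ∧ GroupOfRank E r {ρ : ℂ | aeval ρ χ = 0} ∧
    ∀ m, T.DegM i j m → aeval T.frobM χ m = 0

/-- `UnramifiedForRankOver E q r f`: for every abelian variety `A` as in `IsAbelian` there are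
finitely many products `D t` of divisor classes on `A`, such that for all `T` (motivic
cohomology) and `R` (`ℓ`-adic cohomology) relative to any smooth projective variety `Z`, with the
formal properties and of rank at most `r` over `E`, `T` pure, and all regulators from `T` to `R`: the
Kunneth formula holds for `T` and for `R`, and the group `H = H^3_nr(A × Z, ℚ_ℓ/ℤ_ℓ(2))` is finite
if the Tate-Beilinson statement holds for `Z` in all weights `j ≤ 2`. -/
def UnramifiedForRankOver (E : IntermediateField ℚ ℂ) (q r : ℕ) {I : Type} (f : I → ℤ[X]) :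
    Prop :=
  ∀ (K : Type) [Field K] [CharZero K] (A : AbelianData K) (s : ℕ), IsAbelian A q s f →
    ∃ (J : Type) (_ : Fintype J) (c : J → ℕ) (D : J → A.CH), IsFamily A c D ∧
      ∀ (T R : RelData A) (ρ : Regulator T R), IsRel (q ^ s) T → IsRel (q ^ s) R →
        T.IsPure (q ^ s) → HasRankOn T E r → HasRankOn R E r → IsRegulator ρ →
        T.Kunneth (q ^ s) c D ∧ R.Kunneth (q ^ s) c D ∧
        ∀ H : Type, IsUnramifiedPart ρ (q ^ s) H →
          (∀ i j : ℤ, j ≤ 2 → TBiN ρ (q ^ s) i j) → Finite H

end Pool.Agent.X300.RB
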