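import Mathlib
import Pool.Agent.Y156.L.Props

/-!
# Weil-etale cohomology of products with almost all abelian varieties: definitions
-/

set_option autoImplicit false

namespace Pool.Agent.X300.RB

open Polynomial Pool.Agent.Y156.L

/-- Data of the Weil-etale motivic cohomology groups of the smooth projective varieties `Z` and
`A × Z`. -/
structure WeilEtaleGroups where
  /-- the group `H^i_W(Z, ℤ(n))` -/
  WN : ℤ → ℤ → Type
  [groupN : ∀ n i, AddCommGroup (WN n i)]
  /-- the group `H^i_W(A × Z, ℤ(n))` -/
  WM : ℤ → ℤ → Type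
  [groupM : ∀ n i, AddCommGroup (WM n i)]

attribute [instance] WeilEtaleGroups.groupN WeilEtaleGroups.groupM

variable {K : Type} [Field K] {A : AbelianData K}

/-- The Tate-Beilinson statement for `Z` in the bidegree `(i, j)`: the regulator is injective and
onto the Frobenius invariants, and the eigenvalue `Q ^ j` of Frobenius has no Jordan block of size
two. -/
structure RegulatorIsoN {T R : RelData A} (ρ : Regulator T R) (Q : ℕ) (i j : ℤ) : Prop where
  injective : InjectiveN ρ i j
  onto : OntoN ρ Q i j
  semisimple : ∀ n n' : R.N, R.DegN i j n → R.InvN Q i j n' →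
    R.FN n - R.scaleN ((Q : ℚ) ^ j) n = n' → n' = 0

/-- The Tate-Beilinson statement for `A × Z` in the bidegree `(i, j)`: the regulator is injective and
onto the Frobenius invariants, and the eigenvalue `Q ^ j` of Frobenius has no Jordan block of size
two. -/
structure RegulatorIsoM {T R : RelData A} (ρ : Regulator T R) (Q : ℕ) (i j : ℤ) : Prop where
  injective : InjectiveM ρ i j
  onto : OntoM ρ Q i j
  semisimple : ∀ m m' : R.M, R.DegM i j m → R.InvM Q i j m' →
    R.app A.frob (R.FM m) - R.scaleM ((Q : ℚ) ^ j) m = m' → m' = 0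

/-- The theorem of Geisser and Kahn for `Z` and for `A × Z`: the Weil-etale motivic cohomology groups
of all weights `n ≥ 0` are finitely generated if and only if the Tate-Beilinson statement holds in
all bidegrees. -/
structure IsWeilEtale {T R : RelData A} (ρ : Regulator T R) (Q : ℕ) (W : WeilEtaleGroups) :
    Prop where
  iffN : (∀ n i : ℤ, 0 ≤ n → AddGroup.FG (W.WN n i)) ↔ ∀ i j : ℤ, RegulatorIsoN ρ Q i j
  iffM : (∀ n i : ℤ, 0 ≤ n → AddGroup.FG (W.WM n i)) ↔ ∀ i j : ℤ, RegulatorIsoM ρ Q i j

/-- The Frobenius endomorphism of `Z` satisfies, on all of `H^i(A × Z, j)`, for all `i` and `j`, a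
nonzero rational polynomial whose roots in `ℂ` lie, up to powers, in a group generated by the
nonzero elements of the number field `E` and `r` numbers. -/
def HasFullRank (T : RelData A) (E : IntermediateField ℚ ℂ) (r : ℕ) : Prop :=
  ∀ i j : ℤ, ∃ χ : ℚ[X], χ ≠ 0 ∧ GroupOfRank E r {ρ : ℂ | aeval ρ χ = 0} ∧
    ∀ m, T.DegM i j m → aeval T.frobM χ m = 0

/-- `WeilEtaleForRankOver E q r f`: for every abelian variety `A` as in `IsAbelian` there are
finitely many products `D t` of divisor classes on `A`, such that for all `T` (motivic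
cohomology) and `R` (`ℓ`-adic cohomology) relative to any smooth projective variety `Z`, with the
formal properties and of rank at most `r` over `E`, `T` pure, and all regulators from `T` to `R`: the
Kunneth formula holds for `T` and for `R`, and all groups `H^i_W(A × Z, ℤ(n))`, `n ≥ 0`, are finitely
generated if and only if all groups `H^i_W(Z, ℤ(n))`, `n ≥ 0`, are. -/
def WeilEtaleForRankOver (E : IntermediateField ℚ ℂ) (q r : ℕ) {I : Type} (f : I → ℤ[X]) :
    Prop :=
  ∀ (K : Type) [Field K] [CharZero K] (A : AbelianData K) (s : ℕ), IsAbelian A q s f →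
    ∃ (J : Type) (_ : Fintype J) (c : J → ℕ) (D : J → A.CH), IsFamily A c D ∧
      ∀ (T R : RelData A) (ρ : Regulator T R), IsRel (q ^ s) T → IsRel (q ^ s) R →
        T.IsPure (q ^ s) → HasFullRank T E r → HasFullRank R E r → IsRegulator ρ →
        T.Kunneth (q ^ s) c D ∧ R.Kunneth (q ^ s) c D ∧
        ∀ W : WeilEtaleGroups, IsWeilEtale ρ (q ^ s) W →
          ((∀ n i : ℤ, 0 ≤ n → AddGroup.FG (W.WM n i)) ↔
            ∀ n i : ℤ, 0 ≤ n → AddGroup.FG (W.WN n i))

end Pool.Agent.X300.RB
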