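import Mathlib
import Pool.Agent.X300.RB.TB
import Pool.Agent.X300.RB.WEDefs

/-!
# Weil-etale cohomology of products with almost all abelian varieties
-/

set_option autoImplicit false
set_option linter.unusedSectionVars false

namespace Pool.Agent.X300.RB

open Module Polynomial Pool.Agent.W484.TB Pool.Agent.W484.HS Pool.Agent.W521.Frob
  Pool.Agent.W521.Count Pool.Agent.W521.Bad Pool.Agent.W521.Descent Pool.Agent.W521.Density
  Pool.Agent.Y156.L

section

variable {K : Type} [Field K] [CharZero K] {A : AbelianData K} {Q : ℕ}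

theorem blocksN_one {R : RelData A} {i j : ℤ} : BlocksN R Q i j 1 ↔
    ∀ n n' : R.N, R.DegN i j n → R.InvN Q i j n' →
      R.FN n - R.scaleN ((Q : ℚ) ^ j) n = n' → n' = 0 := by
  constructor
  · intro h n n' h1 h2 h3
    subst h3
    have h4 := h n ⟨h1, (genN_iff 1).2 (mem_genN_one.2 h2)⟩
    exact h4.2
  · intro h m hm
    refine ⟨hm.1, ?_⟩
    exact h m _ hm.1 (mem_genN_one.1 ((genN_iff 1).1 hm.2)) rfl

theorem blocksM_one {R : RelData A} {i j : ℤ} : BlocksM R Q i j 1 ↔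
    ∀ m m' : R.M, R.DegM i j m → R.InvM Q i j m' →
      R.app A.frob (R.FM m) - R.scaleM ((Q : ℚ) ^ j) m = m' → m' = 0 := by
  constructor
  · intro h n n' h1 h2 h3
    subst h3
    have h4 := h n ⟨h1, (genM_iff 1).2 (mem_genM_one.2 h2)⟩
    exact h4.2
  · intro h m hm
    refine ⟨hm.1, ?_⟩
    exact h m _ hm.1 (mem_genM_one.1 ((genM_iff 1).1 hm.2)) rfl

theorem regulatorIsoN_iff {T R : RelData A} {ρ : Regulator T R} {i j : ℤ} :
    RegulatorIsoN ρ Q i j ↔ TateBeilinsonN ρ Q i j :=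
  ⟨fun h => ⟨h.injective, h.onto, blocksN_one.2 h.semisimple⟩,
    fun h => ⟨h.injective, h.onto, blocksN_one.1 h.semisimple⟩⟩

theorem regulatorIsoM_iff {T R : RelData A} {ρ : Regulator T R} {i j : ℤ} :
    RegulatorIsoM ρ Q i j ↔ TateBeilinsonM ρ Q i j :=
  ⟨fun h => ⟨h.injective, h.onto, blocksM_one.2 h.semisimple⟩,
    fun h => ⟨h.injective, h.onto, blocksM_one.1 h.semisimple⟩⟩

theorem kunneth_one {T : RelData A} {J : Type} [Fintype J] {c : J → ℕ} {D : J → A.CH}
    (h : KunnethGen T Q c D) : T.Kunneth Q c D := by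
  intro i j m hm
  obtain ⟨z, hz, hu⟩ := h i j 1 m ((genM_iff 1).2 (mem_genM_one.2 hm))
  refine ⟨z, ⟨fun t => mem_genN_one.1 ((genN_iff 1).1 (hz.1 t)), hz.2⟩, ?_⟩
  rintro z' ⟨h1, h2⟩
  exact hu z' ⟨fun t => (genN_iff 1).2 (mem_genN_one.2 (h1 t)), h2⟩

end

section

variable {I : Type} [Finite I] (g : I → ℕ) (E : IntermediateField ℚ ℂ) [FiniteDimensional ℚ E]
  {q : ℕ} (hq : 1 < q) (r : ℕ) (hr : ∀ i, r < g i)
  (x : (Σ i, Fin (g i)) → ℤ) (hx : GoodU (splitPrimes E) g q x)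

include hq hr hx

theorem we_of_good : WeilEtaleForRankOver E q r (fun i => weil q (polys g x i)) := by
  intro K _ _ A s hA
  obtain ⟨J, hJ, c, D, hF, hmain⟩ := tb_of_good g E hq r hr x hx K A s hA
  refine ⟨J, hJ, c, D, hF, fun T R ρ hT hR hpure hrT hrR hρ => ?_⟩
  obtain ⟨h1, h2, -, h3⟩ := hmain T R ρ hT hR hpure hrT hrR hρ
  refine ⟨kunneth_one h1, kunneth_one h2, fun W hW => ?_⟩
  rw [hW.iffM, hW.iffN]
  simp only [regulatorIsoM_iff, regulatorIsoN_iff]
  exact h3

end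

section count

variable {I : Type} [Fintype I] (g : I → ℕ) (r : ℕ) (hr : ∀ i, r < g i)
  (E : IntermediateField ℚ ℂ) [FiniteDimensional ℚ E]

include hr

theorem count_we : AlmostAll g fun q f => WeilEtaleForRankOver E q r f :=
  count_of_goodU (splitPrimes E) (dense_splitPrimes E) g
    (fun i => (Nat.zero_le r).trans_lt (hr i)) (fun q f => WeilEtaleForRankOver E q r f)
    fun _ hq x hx => we_of_good g E hq.one_lt r hr x hx

end count

end Pool.Agent.X300.RB
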