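import Mathlib
import Pool.Agent.X300.RB.WE
import Pool.Agent.X300.RB.NRDefs

/-!
# Unramified cohomology of products with almost all abelian varieties
-/

set_option autoImplicit false
set_option linter.unusedSectionVars false

namespace Pool.Agent.X300.RB

open Module Polynomial Pool.Agent.W484.TB Pool.Agent.W484.HS Pool.Agent.W521.Frob
  Pool.Agent.W521.Count Pool.Agent.W521.Bad Pool.Agent.W521.Descent Pool.Agent.W521.Density
  Pool.Agent.Y156.L

section

variable {K : Type} [Field K] [CharZero K] {A : AbelianData K} {Q : ℕ}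

theorem tBiN_iff {T R : RelData A} {ρ : Regulator T R} {i j : ℤ} :
    TBiN ρ Q i j ↔ TateBeilinsonN ρ Q i j :=
  ⟨fun h => ⟨h.injective, h.onto, blocksN_one.2 h.semisimple⟩,
    fun h => ⟨h.injective, h.onto, blocksN_one.1 h.semisimple⟩⟩

theorem tBiM_iff {T R : RelData A} {ρ : Regulator T R} {i j : ℤ} :
    TBiM ρ Q i j ↔ TateBeilinsonM ρ Q i j :=
  ⟨fun h => ⟨h.injective, h.onto, blocksM_one.2 h.semisimple⟩,
    fun h => ⟨h.injective, h.onto, blocksM_one.1 h.semisimple⟩⟩

end

section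

variable {I : Type} [Finite I] (g : I → ℕ) (E : IntermediateField ℚ ℂ) [FiniteDimensional ℚ E]
  {q : ℕ} (hq : 1 < q) (r : ℕ) (hr : ∀ i, r < g i)
  (x : (Σ i, Fin (g i)) → ℤ) (hx : GoodU (splitPrimes E) g q x)

include hq hr hx

theorem nr_of_good : UnramifiedForRankOver E q r (fun i => weil q (polys g x i)) := by
  intro K _ _ A s hA
  obtain ⟨J, hJ, c, D, hF, hmain⟩ := tb_of_good g E hq r hr x hx K A s hA
  refine ⟨J, hJ, c, D, hF, fun T R ρ hT hR hpure hrT hrR hρ => ?_⟩
  obtain ⟨h1, h2, h3, -⟩ := hmain T R ρ hT hR hpure hrT hrR hρ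
  refine ⟨kunneth_one h1, kunneth_one h2, fun H hH h => hH fun i => ?_⟩
  rw [tBiM_iff, (h3 i 2).2.2.2]
  exact fun k _ => tBiN_iff.1 (h _ _ (by omega))

end

section count

variable {I : Type} [Fintype I] (g : I → ℕ) (r : ℕ) (hr : ∀ i, r < g i)
  (E : IntermediateField ℚ ℂ) [FiniteDimensional ℚ E]

include hr

theorem count_nr : AlmostAll g fun q f => UnramifiedForRankOver E q r f :=
  count_of_goodU (splitPrimes E) (dense_splitPrimes E) g
    (fun i => (Nat.zero_le r).trans_lt (hr i)) (fun q f => UnramifiedForRankOver E q r f)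
    fun _ hq x hx => nr_of_good g E hq.one_lt r hr x hx

end count

end Pool.Agent.X300.RB
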