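import Mathlib
import Pool.Agent.Y156.L.Props

/-!
# Finitely generated groups for products with almost all abelian varieties: definitions
-/

set_option autoImplicit false

namespace Pool.Agent.X300.RB

open Polynomial Pool.Agent.Y156.L

/-- Data of the cohomology groups `H^i(Z, ℤ^c(n))` and `H^i(A × Z, ℤ^c(n))` of the cycle complexes of
`Z` and `A × Z`, for the etale topology. -/
structure CycleComplexGroups where
  /-- the group `H^i(Z, ℤ^c(n))` -/
  CN : ℤ → ℤ → Type
  [groupN : ∀ n i, AddCommGroup (CN n i)]
  /-- the group `H^i(A × Z, ℤ^c(n))` -/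
  CM : ℤ → ℤ → Type
  [groupM : ∀ n i, AddCommGroup (CM n i)]

attribute [instance] CycleComplexGroups.groupN CycleComplexGroups.groupM

/-- The groups `H^i(Z, ℤ^c(n))` are finitely generated for all `i`. -/
def FinGenN (G : CycleComplexGroups) (n : ℤ) : Prop := ∀ i, AddGroup.FG (G.CN n i)

/-- The groups `H^i(A × Z, ℤ^c(n))` are finitely generated for all `i`. -/
def FinGenM (G : CycleComplexGroups) (n : ℤ) : Prop := ∀ i, AddGroup.FG (G.CM n i)

variable {K : Type} [Field K] {A : AbelianData K}

/-- In negative weights `n` the groups for `Z` are finitely generated in all degrees if and only if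
the rational motivic homology groups of `Z` of weight `n` are zero, and the same is true for `A × Z`.
In the theory `T` the group of `Z` in bidegree `(i, j)` is the motivic homology group of degree `-i`
and weight `-j`, and the group of `A × Z` in bidegree `(i, j)` is the motivic homology group of
degree `2 dim A - i` and weight `dim A - j`. -/
structure IsCycleComplex (T : RelData A) (G : CycleComplexGroups) : Prop where
  iffN : ∀ n : ℤ, n < 0 → (FinGenN G n ↔ ∀ i, T.grN i (-n) = ⊥)
  iffM : ∀ n : ℤ, n < 0 → (FinGenM G n ↔ ∀ i, T.grM i (A.dim - n) = ⊥)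

/-- `FinGenForRankOver E q r f`: for every abelian variety `A` as in `IsAbelian` there are
finitely many products `D t` of divisor classes on `A`, such that for all `T` (motivic homology)
relative to any scheme `Z`, with the formal properties, pure and of rank at most `r` over `E`: the
Kunneth formula holds, and for the cohomology groups of the cycle complexes and all `n < 0` the groups
`H^i(A × Z, ℤ^c(n))` are finitely generated for all `i` if and only if the groups
`H^i(Z, ℤ^c(n - k))` are, for all `i` and `0 ≤ k ≤ dim A`; so they are finitely generated for `A × Z`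
and all negative weights if and only if this is true for `Z`. -/
def FinGenForRankOver (E : IntermediateField ℚ ℂ) (q r : ℕ) {I : Type} (f : I → ℤ[X]) : Prop :=
  ∀ (K : Type) [Field K] [CharZero K] (A : AbelianData K) (s : ℕ), IsAbelian A q s f →
    ∃ (J : Type) (_ : Fintype J) (c : J → ℕ) (D : J → A.CH), IsFamily A c D ∧
      ∀ T : RelData A, IsRel (q ^ s) T → T.IsPure (q ^ s) → T.HasRank (q ^ s) E r →
        T.Kunneth (q ^ s) c D ∧
        ∀ G : CycleComplexGroups, IsCycleComplex T G →
          (∀ n : ℤ, n < 0 →
            (FinGenM G n ↔ ∀ k : ℕ, k ≤ A.dim → FinGenN G (n - k))) ∧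
          ((∀ n : ℤ, n < 0 → FinGenM G n) ↔ ∀ n : ℤ, n < 0 → FinGenN G n)

end Pool.Agent.X300.RB
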