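import Mathlib
import Pool.Agent.Y156.L.Thms
import Pool.Agent.X300.RB.FGDefs

/-!
# Finitely generated groups for products with almost all abelian varieties
-/

set_option autoImplicit false
set_option linter.unusedSectionVars false

namespace Pool.Agent.X300.RB

open Module Polynomial Pool.Agent.W484.TB Pool.Agent.W484.HS Pool.Agent.W521.Frob
  Pool.Agent.W521.Count Pool.Agent.W521.Bad Pool.Agent.W521.Descent Pool.Agent.W521.Density
  Pool.Agent.Y156.L

/-- All groups of `A × Z` of weight `j` vanish if and only if all groups of `Z` of the weights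
`j - k` do. -/
theorem vanish_iff {K : Type} [Field K] {A : AbelianData K} {T : RelData A}
    (h : ∀ i j : ℤ, T.grM i j = ⊥ ↔ ∀ k : ℕ, k ≤ A.dim → T.grN (i - 2 * k) (j - k) = ⊥)
    (j : ℤ) : (∀ i, T.grM i j = ⊥) ↔ ∀ k : ℕ, k ≤ A.dim → ∀ i, T.grN i (j - k) = ⊥ := by
  constructor
  · intro h0 k hk i
    have h1 := (h (i + 2 * k) j).1 (h0 _) k hk
    rwa [add_sub_cancel_right] at h1
  · intro h0 i
    exact (h i j).2 fun k hk => h0 k hk _

section

variable {I : Type} [Finite I] (g : I → ℕ) (E : IntermediateField ℚ ℂ) [FiniteDimensional ℚ E]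
  {q : ℕ} (hq : 1 < q) (r : ℕ) (hr : ∀ i, r < g i)
  (x : (Σ i, Fin (g i)) → ℤ) (hx : GoodU (splitPrimes E) g q x)

include hq hr hx

theorem fg_of_good : FinGenForRankOver E q r (fun i => weil q (polys g x i)) := by
  intro K _ _ A s hA
  obtain ⟨J, hJ, c, D, hF, hmain⟩ := parshin_of_good g E hq r hr x hx K A s hA
  refine ⟨J, hJ, c, D, hF, fun T hT hpure hrank => ?_⟩
  obtain ⟨h1, h2⟩ := hmain T hT hpure hrank
  refine ⟨h1, fun G hG => ?_⟩
  have h3 : ∀ n : ℤ, n < 0 → (FinGenM G n ↔ ∀ k : ℕ, k ≤ A.dim → FinGenN G (n - k)) := by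
    intro n hn
    rw [hG.iffM n hn, vanish_iff h2]
    constructor
    · intro h k hk
      rw [hG.iffN _ (by omega)]
      intro i
      have h4 := h (A.dim - k) (Nat.sub_le _ _) i
      rwa [Nat.cast_sub hk, show (A.dim : ℤ) - n - (A.dim - k) = -(n - k) by ring] at h4
    · intro h k hk i
      have h4 := h (A.dim - k) (Nat.sub_le _ _)
      rw [hG.iffN _ (by omega)] at h4
      have h5 := h4 i
      rwa [Nat.cast_sub hk, show -(n - ((A.dim : ℤ) - k)) = A.dim - n - k by ring] at h5
  refine ⟨h3, ?_, ?_⟩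
  · intro h n hn
    have h4 := (h3 n hn).1 (h n hn) 0 (Nat.zero_le _)
    rwa [Nat.cast_zero, sub_zero] at h4
  · intro h n hn
    exact (h3 n hn).2 fun k _ => h _ (by omega)

end

section count

variable {I : Type} [Fintype I] (g : I → ℕ) (r : ℕ) (hr : ∀ i, r < g i)
  (E : IntermediateField ℚ ℂ) [FiniteDimensional ℚ E]

include hr

theorem count_fg : AlmostAll g fun q f => FinGenForRankOver E q r f :=
  count_of_goodU (splitPrimes E) (dense_splitPrimes E) g
    (fun i => (Nat.zero_le r).trans_lt (hr i)) (fun q f => FinGenForRankOver E q r f)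
    fun _ hq x hx => fg_of_good g E hq.one_lt r hr x hx

end count

end Pool.Agent.X300.RB
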