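import Mathlib
import Pool.Agent.Y156.L.Props

/-!
# The finite generation conjecture of Flach and Morin for products with almost all abelian varieties:
definitions
-/

set_option autoImplicit false

namespace Pool.Agent.X300.RB

open Polynomial Pool.Agent.Y156.L

/-- Data of the cohomology groups `H^i(Z, ℤ^c(n))` and `H^i(A × Z, ℤ^c(n))` of the cycle complexes of
the smooth projective varieties `Z` and `A × Z`, for the etale topology. -/
structure EtaleMotivicGroups where
  /-- the group `H^i(Z, ℤ^c(n))` -/
  CN : ℤ → ℤ → Type
  [groupN : ∀ n i, AddCommGroup (CN n i)]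
  /-- the group `H^i(A × Z, ℤ^c(n))` -/
  CM : ℤ → ℤ → Type
  [groupM : ∀ n i, AddCommGroup (CM n i)]

attribute [instance] EtaleMotivicGroups.groupN EtaleMotivicGroups.groupM

/-- The conjecture of Flach and Morin for `Z` and the weight `n`: the groups `H^i(Z, ℤ^c(n))` are
finitely generated for `i ≤ -2 n + 1`. -/
def FlachMorinN (G : EtaleMotivicGroups) (n : ℤ) : Prop :=
  ∀ i : ℤ, i ≤ -2 * n + 1 → AddGroup.FG (G.CN n i)

/-- The conjecture of Flach and Morin for `A × Z` and the weight `n`: the groups
`H^i(A × Z, ℤ^c(n))` are finitely generated for `i ≤ -2 n + 1`. -/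
def FlachMorinM (G : EtaleMotivicGroups) (n : ℤ) : Prop :=
  ∀ i : ℤ, i ≤ -2 * n + 1 → AddGroup.FG (G.CM n i)

variable {K : Type} [Field K] {A : AbelianData K}

/-- The variety `Z` has dimension `d`, and for `n < 0` the conjecture of Flach and Morin holds for
`Z` and `n` if and only if the rational motivic cohomology of `Z` of weight `d - n` is zero; the
same is true for `A × Z`, of dimension `dim A + d`. -/
structure IsEtaleMotivic (T : RelData A) (d : ℕ) (G : EtaleMotivicGroups) : Prop where
  iffN : ∀ n : ℤ, n < 0 → (FlachMorinN G n ↔ ∀ i, T.grN i (d - n) = ⊥)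
  iffM : ∀ n : ℤ, n < 0 → (FlachMorinM G n ↔ ∀ i, T.grM i (A.dim + d - n) = ⊥)

/-- `FlachMorinForRankOver E q r f`: for every abelian variety `A` as in `IsAbelian` there are
finitely many products `D t` of divisor classes on `A`, such that for all `T` (motivic cohomology)
relative to any smooth projective variety `Z` of any dimension `d`, with the formal properties, pure
and of rank at most `r` over `E`: the Kunneth formula holds, and for all `n < 0` the conjecture of
Flach and Morin holds for `A × Z` and the weight `n` if and only if it holds for `Z` and the weights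
`n - k`, `0 ≤ k ≤ dim A`; so it holds for `A × Z` and all negative weights if and only if it holds for
`Z` and all negative weights. -/
def FlachMorinForRankOver (E : IntermediateField ℚ ℂ) (q r : ℕ) {I : Type} (f : I → ℤ[X]) :
    Prop :=
  ∀ (K : Type) [Field K] [CharZero K] (A : AbelianData K) (s : ℕ), IsAbelian A q s f →
    ∃ (J : Type) (_ : Fintype J) (c : J → ℕ) (D : J → A.CH), IsFamily A c D ∧
      ∀ T : RelData A, IsRel (q ^ s) T → T.IsPure (q ^ s) → T.HasRank (q ^ s) E r →
        T.Kunneth (q ^ s) c D ∧
        ∀ (d : ℕ) (G : EtaleMotivicGroups), IsEtaleMotivic T d G →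
          (∀ n : ℤ, n < 0 →
            (FlachMorinM G n ↔ ∀ k : ℕ, k ≤ A.dim → FlachMorinN G (n - k))) ∧
          ((∀ n : ℤ, n < 0 → FlachMorinM G n) ↔ ∀ n : ℤ, n < 0 → FlachMorinN G n)

end Pool.Agent.X300.RB
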