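import Mathlib
import Pool.Agent.Y156.L.Props

/-!
# Rational K-theory of products with almost all abelian varieties: definitions
-/

set_option autoImplicit false

namespace Pool.Agent.X300.RB

open Polynomial Pool.Agent.Y156.L

variable {K : Type} [Field K] {A : AbelianData K}

/-- The group `K_m(Z) ⊗ ℚ`, the sum of its parts `H^(2 j - m)(Z, ℚ(j))` on which the Adams operations
`ψ^l` act as `l ^ j`. -/
def kGroupN (T : RelData A) (m : ℕ) : Submodule ℚ T.N := ⨆ j : ℤ, T.grN (2 * j - m) j

/-- The group `K_m(A × Z) ⊗ ℚ`, the sum of its parts `H^(2 j - m)(A × Z, ℚ(j))` on which the Adams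
operations `ψ^l` act as `l ^ j`. -/
def kGroupM (T : RelData A) (m : ℕ) : Submodule ℚ T.M := ⨆ j : ℤ, T.grM (2 * j - m) j

/-- `KTheoryForRankOver E q r f`: for every abelian variety `A` as in `IsAbelian` there are finitely
many products `D t` of divisor classes on `A`, such that for all `T` (rational K-theory with the
decomposition by the Adams operations) relative to any smooth scheme `Z`, with the formal
properties, pure and of rank at most `r` over `E`, and all `m`: every element of `K_m(A × Z) ⊗ ℚ` is
the sum of products of the `D t` with unique elements of `K_m(Z) ⊗ ℚ`, and conversely; in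
particular `K_m(A × Z) ⊗ ℚ` is zero if and only if `K_m(Z) ⊗ ℚ` is zero. -/
def KTheoryForRankOver (E : IntermediateField ℚ ℂ) (q r : ℕ) {I : Type} (f : I → ℤ[X]) : Prop :=
  ∀ (K : Type) [Field K] [CharZero K] (A : AbelianData K) (s : ℕ), IsAbelian A q s f →
    ∃ (J : Type) (_ : Fintype J) (c : J → ℕ) (D : J → A.CH), IsFamily A c D ∧
      ∀ T : RelData A, IsRel (q ^ s) T → T.IsPure (q ^ s) → T.HasRank (q ^ s) E r →
        ∀ m : ℕ, (∀ x ∈ kGroupM T m, ∃! z : J → T.N, (∀ t, z t ∈ kGroupN T m) ∧
            x = ∑ t, T.mul (D t) (z t)) ∧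
          (∀ z : J → T.N, (∀ t, z t ∈ kGroupN T m) → ∑ t, T.mul (D t) (z t) ∈ kGroupM T m) ∧
          (kGroupM T m = ⊥ ↔ kGroupN T m = ⊥)

end Pool.Agent.X300.RB
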