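import Mathlib
import Pool.Agent.X300.RB.Kun2
import Pool.Agent.X300.RB.KthDefs

/-!
# Rational K-theory of products with almost all abelian varieties
-/

set_option autoImplicit false
set_option linter.unusedSectionVars false

namespace Pool.Agent.X300.RB

open Module Polynomial Pool.Agent.W484.TB Pool.Agent.W484.HS Pool.Agent.W521.Frob
  Pool.Agent.W521.Count Pool.Agent.W521.Bad Pool.Agent.W521.Descent Pool.Agent.W521.Density
  Pool.Agent.Y156.L

section

variable {K : Type} [Field K] [CharZero K] {A : AbelianData K} {J : Type} [Fintype J]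
  {c : J → ℕ} {D E : J → A.CH} {Q : ℕ} {T : RelData A}

theorem times_kGroup (h : IsDual A c D E) (hT : IsRel Q T) (m : ℕ) (t : J) {z : T.N}
    (hz : z ∈ kGroupN T m) : T.times (D t) z ∈ kGroupM T m := by
  have h1 : kGroupN T m ≤ (kGroupM T m).comap (T.times (D t)) := by
    refine iSup_le fun j z hz => ?_
    have h2 := hT.times_mem (h.left t) hz
    rw [show 2 * j - (m : ℤ) + 2 * c t = 2 * (j + c t) - m by ring] at h2
    exact Submodule.mem_iSup_of_mem (j + c t) h2
  exact h1 hz

theorem pair_kGroup (h : IsDual A c D E) (hT : IsRel Q T) (m : ℕ) (t : J) {x : T.M}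
    (hx : x ∈ kGroupM T m) : T.pair (E t) x ∈ kGroupN T m := by
  have h1 : kGroupM T m ≤ (kGroupN T m).comap (T.pair (E t)) := by
    refine iSup_le fun j x hx => ?_
    have h2 := hT.pair_mem (c := c t) (d := A.dim - c t) (by have := h.le t; omega)
      (h.right t) hx
    rw [show 2 * j - (m : ℤ) - 2 * c t = 2 * (j - c t) - m by ring] at h2
    exact Submodule.mem_iSup_of_mem (j - c t) h2
  exact h1 hx

theorem exp_kGroup (hexp : ∀ i j : ℤ, ∀ m ∈ T.grM i j, m = ∑ t, T.times (D t) (T.pair (E t) m))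
    (m : ℕ) : ∀ x ∈ kGroupM T m, x = ∑ t, T.times (D t) (T.pair (E t) x) := by
  set F : T.M →ₗ[ℚ] T.M := LinearMap.id - ∑ t, T.times (D t) ∘ₗ T.pair (E t) with hF
  have hFx : ∀ x, F x = x - ∑ t, T.times (D t) (T.pair (E t) x) := by
    intro x
    rw [hF, LinearMap.sub_apply, LinearMap.sum_apply]
    rfl
  have h1 : kGroupM T m ≤ LinearMap.ker F := by
    refine iSup_le fun j x hx => ?_
    rw [LinearMap.mem_ker, hFx, sub_eq_zero]
    exact hexp _ _ x hx
  intro x hx
  have h2 := h1 hx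
  rwa [LinearMap.mem_ker, hFx, sub_eq_zero] at h2

theorem kGroup_all (hF : IsFamily A c D) (h : IsDual A c D E) (hT : IsRel Q T)
    (hexp : ∀ i j : ℤ, ∀ m ∈ T.grM i j, m = ∑ t, T.times (D t) (T.pair (E t) m)) (m : ℕ) :
    (∀ x ∈ kGroupM T m, ∃! z : J → T.N, (∀ t, z t ∈ kGroupN T m) ∧
        x = ∑ t, T.mul (D t) (z t)) ∧
      (∀ z : J → T.N, (∀ t, z t ∈ kGroupN T m) → ∑ t, T.mul (D t) (z t) ∈ kGroupM T m) ∧
      (kGroupM T m = ⊥ ↔ kGroupN T m = ⊥) := by
  refine ⟨fun x hx => ⟨fun t => T.pair (E t) x, ⟨fun t => pair_kGroup h hT m t hx,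
    exp_kGroup hexp m x hx⟩, ?_⟩, fun z hz => Submodule.sum_mem _ fun t _ =>
      times_kGroup h hT m t (hz t), ?_, ?_⟩
  · rintro z ⟨-, hz⟩
    funext t
    rw [hz]
    exact (pair_sum hT h t z).symm
  · intro h0
    obtain ⟨t, -⟩ := hF.exists_eq 0 (Nat.zero_le _)
    rw [eq_bot_iff]
    intro z hz
    have h1 := times_kGroup h hT m t hz
    rw [h0, Submodule.mem_bot] at h1
    classical
    have h3 := dualpair hT h t t z
    rw [h1, map_zero, if_pos rfl] at h3
    rw [Submodule.mem_bot]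
    exact h3.symm
  · intro h0
    rw [eq_bot_iff]
    intro x hx
    rw [Submodule.mem_bot, exp_kGroup hexp m x hx]
    refine Finset.sum_eq_zero fun t _ => ?_
    have h1 := pair_kGroup h hT m t hx
    rw [h0, Submodule.mem_bot] at h1
    rw [h1, map_zero]

end

section

variable {I : Type} [Finite I] (g : I → ℕ) (E : IntermediateField ℚ ℂ) [FiniteDimensional ℚ E]
  {q : ℕ} (hq : 1 < q) (r : ℕ) (hr : ∀ i, r < g i)
  (x : (Σ i, Fin (g i)) → ℤ) (hx : GoodU (splitPrimes E) g q x)

include hq hr hx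

theorem kth_of_good : KTheoryForRankOver E q r (fun i => weil q (polys g x i)) := by
  intro K _ _ A s hA
  obtain ⟨J, hJ, c, D, E', hF, hdual, hQ, hmain⟩ := exists_classes g E hq r hr x hx hA
  refine ⟨J, hJ, c, D, hF, fun T hT hpure hrT m => ?_⟩
  exact kGroup_all hF hdual hT (fun i j m hm => (hmain T hT hrT i j m (hpure i j m hm)).1) m

end

section count

variable {I : Type} [Fintype I] (g : I → ℕ) (r : ℕ) (hr : ∀ i, r < g i)
  (E : IntermediateField ℚ ℂ) [FiniteDimensional ℚ E]

include hr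

theorem count_kth : AlmostAll g fun q f => KTheoryForRankOver E q r f :=
  count_of_goodU (splitPrimes E) (dense_splitPrimes E) g
    (fun i => (Nat.zero_le r).trans_lt (hr i)) (fun q f => KTheoryForRankOver E q r f)
    fun _ hq x hx => kth_of_good g E hq.one_lt r hr x hx

end count

end Pool.Agent.X300.RB
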